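import Pool.Agent.H599R2.QB.QDefs

/-!
# Quantified formulas for parity: upper bounds
-/

namespace H599.QB

open Finset
open Pool.Agent.H564R2.QF (Fml)

theorem quant_succ (m : ℕ) (q : Fin (m + 1) → Bool) (P : (Fin (m + 1) → Bool) → Prop) :
    Quant (m + 1) q P = if q 0 = true then
      ∀ b : Bool, Quant m (fun i => q i.succ) (fun y => P (Fin.cons b y))
    else ∃ b : Bool, Quant m (fun i => q i.succ) (fun y => P (Fin.cons b y)) := rfl

/-- bit as an element of `ZMod 2` -/
def bz (b : Bool) : ZMod 2 := if b then 1 else 0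

theorem bz_inj {a b : Bool} (h : bz a = bz b) : a = b := by
  revert a b; decide

theorem bz_xor (a b : Bool) : bz (a ^^ b) = bz a + bz b := by
  revert a b; decide

theorem zaux1 : ∀ z u v : ZMod 2, u + z = v → z = u + v := by decide

theorem zaux2 : ∀ u v : ZMod 2, u + (u + v) = v := by decide

theorem odd_iff_sum {n : ℕ} (x : Fin n → Bool) :
    Odd (Finset.univ.filter fun i => x i = true).card ↔ ∑ i, bz (x i) = 1 := by
  rw [← ZMod.natCast_eq_one_iff_odd, Finset.card_filter]
  push_cast
  rfl

variable {V : Type}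

/-- multiplexer -/
def mux : ℕ → (ℕ → Bool) → (ℕ → Bool) → Bool
  | 0, X, _ => X 0
  | k + 1, X, Y => if Y 1 then mux k (fun j => X (2 ^ k + j)) (fun j => Y (j + 2))
    else mux k X (fun j => Y (j + 2))

/-- target -/
def tgt : ℕ → Bool → (ℕ → Bool) → Bool
  | 0, t, _ => t
  | k + 1, t, Y => tgt k (Y 0 ^^ (Y 1 && t)) (fun j => Y (j + 2))

theorem mux_fml (k : ℕ) (X Y : ℕ → Fml V) (hX : ∀ j, (X j).size ≤ 1) (hY : ∀ j, (Y j).size ≤ 1) :
    ∃ φ : Fml V, φ.size + 2 ≤ 3 * 2 ^ k ∧
      ∀ v, φ.eval v = mux k (fun j => (X j).eval v) (fun j => (Y j).eval v) := by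
  induction k generalizing X Y with
  | zero => exact ⟨X 0, by have := hX 0; omega, fun v => rfl⟩
  | succ k ih =>
    obtain ⟨φ, h1, h2⟩ := ih X (fun j => Y (j + 2)) hX (fun j => hY _)
    obtain ⟨ψ, h3, h4⟩ := ih (fun j => X (2 ^ k + j)) (fun j => Y (j + 2)) (fun j => hX _)
      (fun j => hY _)
    refine ⟨.or (.and (.neg (Y 1)) φ) (.and (Y 1) ψ), ?_, fun v => ?_⟩
    · have h5 := hY 1
      change ((Y 1).size + φ.size) + ((Y 1).size + ψ.size) + 2 ≤ _
      rw [pow_succ]
      omega
    · change ((!((Y 1).eval v) && φ.eval v) || ((Y 1).eval v && ψ.eval v)) =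
        if (Y 1).eval v then mux k (fun j => (X (2 ^ k + j)).eval v) (fun j => (Y (j + 2)).eval v)
        else mux k (fun j => (X j).eval v) (fun j => (Y (j + 2)).eval v)
      rw [h2, h4]
      cases (Y 1).eval v <;> simp

theorem tgt_fml (k : ℕ) (t : Fml V) (Y : ℕ → Fml V) (hY : ∀ j, (Y j).size ≤ 1) :
    ∃ φ : Fml V, φ.size + 4 ≤ 2 ^ k * (t.size + 4) ∧
      ∀ v, φ.eval v = tgt k (t.eval v) (fun j => (Y j).eval v) := by
  induction k generalizing t Y with
  | zero => exact ⟨t, by simp, fun v => rfl⟩
  | succ k ih =>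
    obtain ⟨φ, h1, h2⟩ := ih (.or (.and (Y 0) (.neg (.and (Y 1) t))) (.and (.neg (Y 0)) (.and (Y 1) t)))
      (fun j => Y (j + 2)) (fun j => hY _)
    refine ⟨φ, h1.trans ?_, fun v => ?_⟩
    · have h3 := hY 0
      have h4 := hY 1
      rw [pow_succ, mul_assoc]
      refine Nat.mul_le_mul_left _ ?_
      change ((Y 0).size + ((Y 1).size + t.size)) + ((Y 0).size + ((Y 1).size + t.size)) + 4 ≤ _
      omega
    · rw [h2]
      change tgt k (((Y 0).eval v && !((Y 1).eval v && t.eval v)) ||
        (!((Y 0).eval v) && ((Y 1).eval v && t.eval v))) _ =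
        tgt k ((Y 0).eval v ^^ ((Y 1).eval v && t.eval v)) _
      congr 1
      cases (Y 0).eval v <;> cases (Y 1).eval v <;> cases t.eval v <;> rfl

/-- extension of a finite sequence by `false` -/
def str {m : ℕ} (y : Fin m → Bool) (j : ℕ) : Bool := if h : j < m then y ⟨j, h⟩ else false

theorem str_cons2 {m : ℕ} (b c : Bool) (y : Fin m → Bool) :
    str (Fin.cons b (Fin.cons c y : Fin (m + 1) → Bool) : Fin (m + 2) → Bool) 0 = b ∧
    str (Fin.cons b (Fin.cons c y : Fin (m + 1) → Bool) : Fin (m + 2) → Bool) 1 = c ∧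
    (fun j => str (Fin.cons b (Fin.cons c y : Fin (m + 1) → Bool) : Fin (m + 2) → Bool) (j + 2))
      = str y := by
  refine ⟨?_, ?_, ?_⟩
  · unfold str
    rw [dif_pos (by omega)]
    rfl
  · unfold str
    rw [dif_pos (by omega)]
    rfl
  · funext j
    unfold str
    by_cases h : j < m
    · rw [dif_pos (by omega), dif_pos h]
      rfl
    · rw [dif_neg (by omega), dif_neg h]

/-- the alternating prefix -/
def altq (m : ℕ) (i : Fin m) : Bool := Nat.bodd i.1

theorem quant_parity (k : ℕ) (X : ℕ → Bool) (t : Bool) :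
    ∑ j ∈ Finset.range (2 ^ k), bz (X j) = bz t ↔
      Quant (2 * k) (altq (2 * k)) (fun y => (mux k X (str y) == tgt k t (str y)) = true) := by
  induction k generalizing X t with
  | zero =>
    change _ ↔ (mux 0 X (str _) == tgt 0 t (str _)) = true
    simp only [mux, tgt, pow_zero, Finset.range_one, Finset.sum_singleton, beq_iff_eq]
    exact ⟨fun h => bz_inj h, fun h => by rw [h]⟩
  | succ k ih =>
    have hq : Quant (2 * (k + 1)) (altq (2 * (k + 1)))
        (fun y => (mux (k + 1) X (str y) == tgt (k + 1) t (str y)) = true) ↔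
        ∃ b : Bool, ∀ c : Bool, Quant (2 * k) (altq (2 * k)) (fun y =>
          (mux (k + 1) X (str (Fin.cons b (Fin.cons c y : Fin (2 * k + 1) → Bool) :
            Fin (2 * k + 2) → Bool)) == tgt (k + 1) t (str (Fin.cons b
              (Fin.cons c y : Fin (2 * k + 1) → Bool) : Fin (2 * k + 2) → Bool))) = true) := by
      have h1 : ∀ m : ℕ, (fun i : Fin m => altq (m + 2) i.succ.succ) = altq m := by
        intro m
        funext i
        unfold altq
        simp [Nat.bodd_succ]
      change Quant (2 * k + 2) (altq (2 * k + 2)) _ ↔ _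
      rw [quant_succ, if_neg (by simp [altq])]
      refine exists_congr fun b => ?_
      rw [quant_succ, if_pos (by simp [altq])]
      refine forall_congr' fun c => ?_
      rw [h1]
    rw [hq]
    have hs : ∑ j ∈ Finset.range (2 ^ (k + 1)), bz (X j) = ∑ j ∈ Finset.range (2 ^ k), bz (X j) +
        ∑ j ∈ Finset.range (2 ^ k), bz (X (2 ^ k + j)) := by
      rw [pow_succ, mul_two, Finset.sum_range_add]
    have hstep : ∀ b c : Bool, (Quant (2 * k) (altq (2 * k)) (fun y =>
          (mux (k + 1) X (str (Fin.cons b (Fin.cons c y : Fin (2 * k + 1) → Bool) :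
            Fin (2 * k + 2) → Bool)) == tgt (k + 1) t (str (Fin.cons b
              (Fin.cons c y : Fin (2 * k + 1) → Bool) : Fin (2 * k + 2) → Bool))) = true)) ↔
        ∑ j ∈ Finset.range (2 ^ k), bz ((if c then (fun j => X (2 ^ k + j)) else X) j)
          = bz (b ^^ (c && t)) := by
      intro b c
      rw [ih]
      have h2 : (fun y : Fin (2 * k) → Bool =>
          (mux (k + 1) X (str (Fin.cons b (Fin.cons c y : Fin (2 * k + 1) → Bool) :
            Fin (2 * k + 2) → Bool)) == tgt (k + 1) t (str (Fin.cons b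
              (Fin.cons c y : Fin (2 * k + 1) → Bool) : Fin (2 * k + 2) → Bool))) = true)
          = fun y => (mux k (if c then (fun j => X (2 ^ k + j)) else X) (str y) ==
            tgt k (b ^^ (c && t)) (str y)) = true := by
        funext y
        obtain ⟨e0, e1, e2⟩ := str_cons2 b c y
        simp only [mux, tgt]
        rw [e0, e1, e2]
        cases c <;> rfl
      rw [h2]
    simp only [hstep]
    constructor
    · intro h
      rw [hs] at h
      obtain ⟨b, hb⟩ : ∃ b : Bool, ∑ j ∈ Finset.range (2 ^ k), bz (X j) = bz b := by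
        have : ∀ z : ZMod 2, ∃ b : Bool, z = bz b := by decide
        exact this _
      refine ⟨b, fun c => ?_⟩
      cases c with
      | false => simpa using hb
      | true =>
        simp only [if_true, Bool.true_and]
        rw [hb] at h
        rw [bz_xor]
        exact zaux1 _ _ _ h
    · rintro ⟨b, hb⟩
      have h0 := hb false
      have h1 := hb true
      simp only [if_true, Bool.true_and, Bool.false_and, Bool.xor_false, Bool.false_eq_true,
        if_false] at h0 h1
      rw [hs, h0, h1, bz_xor]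
      exact zaux2 _ _

theorem alternating (n : ℕ) (hn : 0 < n) : ∃ (m : ℕ) (q : Fin m → Bool) (φ : Fml (Fin n ⊕ Fin m)),
    m ≤ 2 * Nat.clog 2 n ∧ φ.size ≤ 28 * n ∧
    ∀ x : Fin n → Bool, Odd (Finset.univ.filter fun i => x i = true).card ↔
      Quant m q (fun y => φ.eval (Sum.elim x y) = true) := by
  set k := Nat.clog 2 n with hk
  have hk1 : n ≤ 2 ^ k := Nat.le_pow_clog (by norm_num) n
  have hk2 : 2 ^ k ≤ 2 * n := by
    rcases Nat.lt_or_ge 1 n with h | h
    · have h1 : 0 < k := Nat.clog_pos (by norm_num) h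
      have h2 : 2 ^ (k - 1) < n := Nat.pow_pred_clog_lt_self (by norm_num) h
      have h3 : 2 ^ k = 2 * 2 ^ (k - 1) := by
        rw [← pow_succ']; congr 1; omega
      omega
    · have : n = 1 := by omega
      have h2 : k = 0 := by rw [hk, this]; simp
      rw [h2]; omega
  let X : ℕ → Fml (Fin n ⊕ Fin (2 * k)) := fun j =>
    if h : j < n then .var (Sum.inl ⟨j, h⟩) else .const false
  let Y : ℕ → Fml (Fin n ⊕ Fin (2 * k)) := fun j =>
    if h : j < 2 * k then .var (Sum.inr ⟨j, h⟩) else .const false
  have hX : ∀ j, (X j).size ≤ 1 := by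
    intro j
    by_cases h : j < n
    · simp only [X]; rw [dif_pos h]; exact le_rfl
    · simp only [X]; rw [dif_neg h]; exact Nat.zero_le _
  have hY : ∀ j, (Y j).size ≤ 1 := by
    intro j
    by_cases h : j < 2 * k
    · simp only [Y]; rw [dif_pos h]; exact le_rfl
    · simp only [Y]; rw [dif_neg h]; exact Nat.zero_le _
  obtain ⟨φ, h1, h2⟩ := mux_fml k X Y hX hY
  obtain ⟨ψ, h3, h4⟩ := tgt_fml k (.const true) Y hY
  refine ⟨2 * k, altq (2 * k), .or (.and φ ψ) (.and (.neg φ) (.neg ψ)), le_rfl, ?_, fun x => ?_⟩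
  · change (φ.size + ψ.size) + (φ.size + ψ.size) ≤ _
    have h5 : (Fml.const true : Fml (Fin n ⊕ Fin (2 * k))).size = 0 := rfl
    rw [h5] at h3
    omega
  · rw [odd_iff_sum]
    have hsum : ∑ i : Fin n, bz (x i) = ∑ j ∈ Finset.range (2 ^ k), bz (str x j) := by
      rw [← Finset.sum_subset (Finset.range_subset_range.2 hk1)]
      · rw [Finset.sum_range]
        refine Finset.sum_congr rfl fun i _ => ?_
        unfold str
        rw [dif_pos i.2]
      · intro j _ hj
        rw [Finset.mem_range] at hj
        unfold str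
        rw [dif_neg hj]; rfl
    rw [hsum]
    have hq := quant_parity k (str x) true
    have e1 : bz true = 1 := rfl
    rw [e1] at hq
    rw [hq]
    have e2 : (fun y : Fin (2 * k) → Bool => (mux k (str x) (str y) == tgt k true (str y)) = true)
        = fun y => (Fml.or (.and φ ψ) (.and (.neg φ) (.neg ψ))).eval (Sum.elim x y) = true := by
      funext y
      have e3 : (Fml.or (.and φ ψ) (.and (.neg φ) (.neg ψ))).eval (Sum.elim x y)
          = ((φ.eval (Sum.elim x y) && ψ.eval (Sum.elim x y)) ||
            (!(φ.eval (Sum.elim x y)) && !(ψ.eval (Sum.elim x y)))) := rfl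
      have eX : (fun j => (X j).eval (Sum.elim x y)) = str x := by
        funext j
        by_cases h : j < n
        · simp only [X, str]; rw [dif_pos h, dif_pos h]; rfl
        · simp only [X, str]; rw [dif_neg h, dif_neg h]; rfl
      have eY : (fun j => (Y j).eval (Sum.elim x y)) = str y := by
        funext j
        by_cases h : j < 2 * k
        · simp only [Y, str]; rw [dif_pos h, dif_pos h]; rfl
        · simp only [Y, str]; rw [dif_neg h, dif_neg h]; rfl
      rw [e3, h2, h4, eX, eY]
      change _ = (((mux k (str x) (str y) && tgt k true (str y)) ||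
        (!(mux k (str x) (str y)) && !(tgt k true (str y)))) = true)
      cases mux k (str x) (str y) <;> cases tgt k true (str y) <;> simp
    rw [e2]

end H599.QB
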