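import Pool.Agent.H599R2.QB.QFml

/-!
# Nondeterministic formulas for parity: upper bound
-/

namespace H599.QB

open Finset
open Pool.Agent.H564R2.QF (Fml)

variable {V : Type}

theorem zdec : ∀ a b : ZMod 2, decide (a + b = 1) =
    ((decide (a = 1) && !decide (b = 1)) || (!decide (a = 1) && decide (b = 1))) := by decide

theorem bz_dec : ∀ b : Bool, b = decide (bz b = 1) := by decide

theorem dec_bz : ∀ z : ZMod 2, bz (decide (z = 1)) = z := by decide

theorem par_fml [DecidableEq V] (k : ℕ) (S : Finset V) (hS : S.card ≤ 2 ^ k) :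
    ∃ φ : Fml V, φ.size ≤ 4 ^ k ∧ ∀ v, φ.eval v = decide (∑ i ∈ S, bz (v i) = 1) := by
  induction k generalizing S with
  | zero =>
    rw [pow_zero] at hS
    rcases Nat.lt_or_ge S.card 1 with h | h
    · have : S = ∅ := Finset.card_eq_zero.1 (by omega)
      subst this
      exact ⟨.const false, Nat.zero_le _, fun v => by simp [Fml.eval]⟩
    · obtain ⟨a, rfl⟩ := Finset.card_eq_one.1 (le_antisymm hS h)
      refine ⟨.var a, le_rfl, fun v => ?_⟩
      rw [Finset.sum_singleton]
      exact bz_dec (v a)
  | succ k ih =>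
    obtain ⟨T, hT, hTc⟩ := Finset.exists_subset_card_eq
      (s := S) (n := min S.card (2 ^ k)) (min_le_left _ _)
    have h1 : T.card ≤ 2 ^ k := hTc ▸ min_le_right _ _
    have h2 : (S \ T).card ≤ 2 ^ k := by
      rw [Finset.card_sdiff_of_subset hT, hTc]
      rw [pow_succ] at hS
      omega
    obtain ⟨φ, h3, h4⟩ := ih T h1
    obtain ⟨ψ, h5, h6⟩ := ih (S \ T) h2
    refine ⟨.or (.and φ (.neg ψ)) (.and (.neg φ) ψ), ?_, fun v => ?_⟩
    · change (φ.size + ψ.size) + (φ.size + ψ.size) ≤ _
      rw [pow_succ]; omega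
    · change ((φ.eval v && !(ψ.eval v)) || (!(φ.eval v) && ψ.eval v)) = _
      rw [h4, h6, ← Finset.sum_sdiff hT, add_comm, zdec]

theorem conj_fml (s : ℕ) (F : ℕ → (V → Bool) → Prop)
    (h : ∀ j, ∃ φ : Fml V, φ.size ≤ s ∧ ∀ v, φ.eval v = true ↔ F j v) (k : ℕ) :
    ∃ φ : Fml V, φ.size ≤ (k + 1) * s ∧ ∀ v, φ.eval v = true ↔ ∀ j ≤ k, F j v := by
  induction k with
  | zero =>
    obtain ⟨φ, h1, h2⟩ := h 0
    refine ⟨φ, by simpa using h1, fun v => ?_⟩
    rw [h2 v]
    constructor
    · intro h3 j hj
      have : j = 0 := by omega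
      rw [this]; exact h3
    · intro h3; exact h3 0 le_rfl
  | succ k ih =>
    obtain ⟨φ, h1, h2⟩ := ih
    obtain ⟨ψ, h3, h4⟩ := h (k + 1)
    refine ⟨.and φ ψ, ?_, fun v => ?_⟩
    · change φ.size + ψ.size ≤ _
      have : (k + 1 + 1) * s = (k + 1) * s + s := by ring
      omega
    · change (φ.eval v && ψ.eval v) = true ↔ _
      rw [Bool.and_eq_true, h2, h4]
      constructor
      · rintro ⟨h5, h6⟩ j hj
        rcases Nat.lt_or_ge j (k + 1) with h | h
        · exact h5 j (by omega)
        · have : j = k + 1 := by omega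
          rw [this]; exact h6
      · intro h5
        exact ⟨fun j hj => h5 j (by omega), h5 (k + 1) le_rfl⟩

/-- the variables of the `j`-th condition -/
def cset (n m B j : ℕ) : Finset (Fin n ⊕ Fin m) :=
  Finset.univ.filter fun v =>
    Sum.elim (fun i : Fin n => decide (i.1 / B = j))
      (fun l : Fin m => decide (l.1 = j ∨ l.1 + 1 = j)) v = true

/-- parity of the `j`-th block -/
def bp {n : ℕ} (B : ℕ) (x : Fin n → Bool) (j : ℕ) : ZMod 2 :=
  ∑ i : Fin n, if i.1 / B = j then bz (x i) else 0

/-- the previous guessed bit -/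
def prv {m : ℕ} (y : Fin m → Bool) : ℕ → ZMod 2
  | 0 => 0
  | j + 1 => bz (str y j)

theorem cset_card {n m B : ℕ} (hB : 0 < B) (j : ℕ) : (cset n m B j).card ≤ B + 2 := by
  classical
  unfold cset
  rw [Finset.card_filter, Fintype.sum_sum_type]
  simp only [Sum.elim_inl, Sum.elim_inr, decide_eq_true_eq]
  rw [← Finset.card_filter, ← Finset.card_filter]
  refine Nat.add_le_add ?_ ?_
  · have h : (Finset.univ.filter fun i : Fin n => i.1 / B = j).card
        ≤ (Finset.Ico (j * B) (j * B + B)).card := by
      refine Finset.card_le_card_of_injOn (fun v => v.1) (fun v hv => ?_)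
        (fun a _ b _ h => Fin.ext h)
      have h1 := (Finset.mem_filter.1 (Finset.mem_coe.1 hv)).2
      have h2 := Nat.div_add_mod v.1 B
      have h3 := Nat.mod_lt v.1 hB
      rw [h1, mul_comm B j] at h2
      simp only [Finset.coe_Ico, Set.mem_Ico]
      constructor <;> omega
    simpa using h
  · have h : (Finset.univ.filter fun l : Fin m => l.1 = j ∨ l.1 + 1 = j).card
        ≤ (Finset.Icc (j - 1) j).card := by
      refine Finset.card_le_card_of_injOn (fun v => v.1) (fun v hv => ?_)
        (fun a _ b _ h => Fin.ext h)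
      have h1 := (Finset.mem_filter.1 (Finset.mem_coe.1 hv)).2
      simp only [Finset.coe_Icc, Set.mem_Icc]
      omega
    refine h.trans ?_
    rw [Nat.card_Icc]; omega

theorem cset_sum {n m B : ℕ} (j : ℕ) (x : Fin n → Bool) (y : Fin m → Bool) :
    ∑ v ∈ cset n m B j, bz (Sum.elim x y v) = bp B x j + (bz (str y j) + prv y j) := by
  classical
  unfold cset
  rw [Finset.sum_filter, Fintype.sum_sum_type]
  simp only [Sum.elim_inl, Sum.elim_inr, decide_eq_true_eq]
  congr 1
  have h1 : ∀ l : Fin m, (if l.1 = j ∨ l.1 + 1 = j then bz (y l) else 0)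
      = (if l.1 = j then bz (y l) else 0) + (if l.1 + 1 = j then bz (y l) else 0) := by
    intro l
    by_cases h : l.1 = j
    · rw [if_pos (Or.inl h), if_pos h, if_neg (by omega), add_zero]
    · by_cases h2 : l.1 + 1 = j
      · rw [if_pos (Or.inr h2), if_neg h, if_pos h2, zero_add]
      · rw [if_neg (by tauto), if_neg h, if_neg h2, add_zero]
  rw [Finset.sum_congr rfl fun l _ => h1 l, Finset.sum_add_distrib]
  have h2 : ∀ j, ∑ l : Fin m, (if l.1 = j then bz (y l) else 0) = bz (str y j) := by
    intro j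
    unfold str
    by_cases h : j < m
    · rw [dif_pos h, Finset.sum_eq_single ⟨j, h⟩]
      · rw [if_pos rfl]
      · intro b _ hb
        rw [if_neg]
        intro h3
        exact hb (Fin.ext h3)
      · intro h3; exact absurd (Finset.mem_univ _) h3
    · rw [dif_neg h]
      refine Finset.sum_eq_zero fun l _ => ?_
      rw [if_neg]
      have := l.2
      omega
  congr 1
  · exact h2 j
  · cases j with
    | zero =>
      refine Finset.sum_eq_zero fun l _ => ?_
      rw [if_neg (by omega)]
    | succ j =>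
      change _ = bz (str y j)
      rw [← h2 j]
      refine Finset.sum_congr rfl fun l _ => ?_
      by_cases h : l.1 = j
      · rw [if_pos h, if_pos (by omega)]
      · rw [if_neg h, if_neg (by omega)]

/-- prefix parities -/
def pre {n : ℕ} (B : ℕ) (x : Fin n → Bool) (j : ℕ) : ZMod 2 :=
  ∑ i ∈ Finset.range (j + 1), bp B x i

theorem pre_total {n m B : ℕ} (hB : n ≤ (m + 1) * B) (x : Fin n → Bool) :
    pre B x m = ∑ i, bz (x i) := by
  unfold pre bp
  rw [Finset.sum_comm]
  refine Finset.sum_congr rfl fun i _ => ?_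
  rw [Finset.sum_ite_eq, if_pos]
  rw [Finset.mem_range]
  rw [mul_comm] at hB
  exact Nat.div_lt_of_lt_mul (by have := i.2; omega)

theorem zaux3 : ∀ a b c : ZMod 2, a + (b + c) = 0 → b = c + a := by decide

theorem zaux4 : ∀ a c : ZMod 2, a + ((c + a) + c) = 0 := by decide

theorem nondet (n m : ℕ) (hm : m < n) : ∃ φ : Fml (Fin n ⊕ Fin m),
    (m + 1) * φ.size ≤ 64 * n ^ 2 ∧
    ∀ x : Fin n → Bool,
      (Odd (Finset.univ.filter fun i => x i = true).card →
        ∃! y : Fin m → Bool, φ.eval (Sum.elim x y) = true) ∧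
      (¬ Odd (Finset.univ.filter fun i => x i = true).card →
        ∀ y : Fin m → Bool, φ.eval (Sum.elim x y) = false) := by
  classical
  set B := (n + m) / (m + 1) with hB
  have hB1 : n ≤ (m + 1) * B := by
    have h1 := Nat.div_add_mod (n + m) (m + 1)
    have h2 : (n + m) % (m + 1) < m + 1 := Nat.mod_lt (n + m) (Nat.succ_pos m)
    rw [← hB] at h1
    omega
  have hB2 : (m + 1) * B ≤ n + m := Nat.mul_div_le _ _
  have hB0 : 0 < B := by
    rcases Nat.eq_zero_or_pos B with h | h
    · rw [h] at hB1; omega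
    · exact h
  set k := Nat.clog 2 (B + 2) with hk
  have hk1 : B + 2 ≤ 2 ^ k := Nat.le_pow_clog (by norm_num) _
  have hk2 : 2 ^ k ≤ 2 * (B + 2) := by
    have h1 : 0 < k := Nat.clog_pos (by norm_num) (by omega)
    have h2 : 2 ^ (k - 1) < B + 2 :=
      Nat.pow_pred_clog_lt_self (b := 2) (x := B + 2) (by norm_num) (by omega)
    have h3 : 2 ^ k = 2 * 2 ^ (k - 1) := by
      rw [← pow_succ', Nat.sub_add_cancel h1]
    omega
  -- the conditions
  let F : ℕ → (Fin n ⊕ Fin m → Bool) → Prop := fun j v =>
    ∑ i ∈ cset n m B j, bz (v i) = if j = m then 1 else 0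
  have hF : ∀ j, ∃ φ : Fml (Fin n ⊕ Fin m), φ.size ≤ 4 ^ k ∧ ∀ v, φ.eval v = true ↔ F j v := by
    intro j
    obtain ⟨φ, h1, h2⟩ := par_fml k (cset n m B j) ((cset_card hB0 j).trans hk1)
    by_cases hj : j = m
    · refine ⟨φ, h1, fun v => ?_⟩
      simp only [F]
      rw [h2, if_pos hj]
      simp
    · refine ⟨.neg φ, h1, fun v => ?_⟩
      simp only [F]
      rw [if_neg hj]
      change (!(φ.eval v)) = true ↔ _
      rw [h2]
      generalize ∑ i ∈ cset n m B j, bz (v i) = z
      revert z
      decide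
  obtain ⟨φ, h1, h2⟩ := conj_fml (4 ^ k) F hF m
  have key : ∀ (x : Fin n → Bool) (y : Fin m → Bool), φ.eval (Sum.elim x y) = true ↔
      ∀ j ≤ m, bp B x j + (bz (str y j) + prv y j) = if j = m then 1 else 0 := by
    intro x y
    rw [h2]
    refine forall_congr' fun j => forall_congr' fun _ => ?_
    simp only [F]
    rw [cset_sum]
  have hdet : ∀ (x : Fin n → Bool) (y : Fin m → Bool), φ.eval (Sum.elim x y) = true →
      (∀ j < m, bz (str y j) = pre B x j) ∧ pre B x m = 1 := by
    intro x y h
    rw [key] at h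
    have h3 : ∀ j < m, bz (str y j) = pre B x j := by
      intro j
      induction j with
      | zero =>
        intro hj
        have h4 := h 0 (Nat.zero_le _)
        rw [if_neg (by omega)] at h4
        have h5 := zaux3 _ _ _ h4
        rw [h5]
        simp [pre, prv]
      | succ j ih =>
        intro hj
        have h4 := h (j + 1) hj.le
        rw [if_neg (by omega)] at h4
        have h5 := zaux3 _ _ _ h4
        rw [h5]
        change bz (str y j) + bp B x (j + 1) = _
        rw [ih (by omega)]
        unfold pre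
        rw [Finset.sum_range_succ _ (j + 1)]
    refine ⟨h3, ?_⟩
    have h4 := h m le_rfl
    rw [if_pos rfl] at h4
    have h5 : bz (str y m) = 0 := by
      unfold str
      rw [dif_neg (by omega)]; rfl
    rw [h5, zero_add] at h4
    rw [← h4]
    cases m with
    | zero => simp [pre, prv]
    | succ m' =>
      change _ = bp B x (m' + 1) + bz (str y m')
      rw [h3 m' (Nat.lt_succ_self _)]
      unfold pre
      rw [Finset.sum_range_succ _ (m' + 1), add_comm]
  refine ⟨φ, ?_, fun x => ⟨fun hx => ?_, fun hx y => ?_⟩⟩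
  · have h4 : 4 ^ k ≤ 4 * (B + 2) ^ 2 := by
      calc 4 ^ k = (2 ^ k) ^ 2 := by rw [← pow_mul, mul_comm k 2, pow_mul]; norm_num
        _ ≤ (2 * (B + 2)) ^ 2 := Nat.pow_le_pow_left hk2 2
        _ = _ := by ring
    have h5 : (m + 1) * (B + 2) ≤ 4 * n := by
      have : (m + 1) * (B + 2) = (m + 1) * B + 2 * (m + 1) := by ring
      omega
    calc (m + 1) * φ.size ≤ (m + 1) * ((m + 1) * (4 * (B + 2) ^ 2)) :=
          Nat.mul_le_mul_left _ (h1.trans (Nat.mul_le_mul_left _ h4))
      _ = 4 * ((m + 1) * (B + 2)) ^ 2 := by ring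
      _ ≤ 4 * (4 * n) ^ 2 := Nat.mul_le_mul_left _ (Nat.pow_le_pow_left h5 2)
      _ = _ := by ring
  · rw [odd_iff_sum, ← pre_total hB1] at hx
    refine ⟨fun l => decide (pre B x l.1 = 1), ?_, fun y hy => ?_⟩
    · beta_reduce
      rw [key]
      have hstr : ∀ j < m, bz (str (fun l : Fin m => decide (pre B x l.1 = 1)) j) = pre B x j := by
        intro j hj
        unfold str
        rw [dif_pos hj, dec_bz]
      have hprv : ∀ j ≤ m, pre B x j = prv (fun l : Fin m => decide (pre B x l.1 = 1)) j
          + bp B x j := by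
        intro j hj
        cases j with
        | zero => simp [pre, prv]
        | succ j =>
          change _ = bz (str _ j) + _
          rw [hstr j (by omega)]
          unfold pre
          rw [Finset.sum_range_succ _ (j + 1)]
      intro j hj
      rcases Nat.lt_or_ge j m with h | h
      · rw [if_neg (by omega), hstr j h, hprv j hj]
        exact zaux4 _ _
      · have hjm : j = m := le_antisymm hj h
        subst hjm
        rw [if_pos rfl]
        have h5 : bz (str (fun l : Fin j => decide (pre B x l.1 = 1)) j) = 0 := by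
          unfold str
          rw [dif_neg (by omega)]; rfl
        rw [h5, zero_add]
        have h6 := hprv j le_rfl
        rw [hx] at h6
        rw [add_comm]
        exact h6.symm
    · funext l
      have h3 := (hdet x y hy).1 l.1 l.2
      have h4 : str y l.1 = y l := by
        unfold str; rw [dif_pos l.2]
      rw [h4] at h3
      rw [← h3]
      exact bz_dec (y l)
  · rw [odd_iff_sum, ← pre_total hB1] at hx
    by_contra hcon
    exact hx (hdet x y (by simpa using hcon)).2

end H599.QB
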