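import Pool.Agent.H564R2.QF.Defs

/-!
# Formulas with quantified bits: definitions
-/

namespace H599.QB

/-- A leaf: a Boolean function of the auxiliary bits `y` and of the input `x` which, for each
fixed `y`, agrees on `{0,1}^n` with a real polynomial in `x` of total degree at most `w`. -/
def GLeaf (n m w : ℕ) : Type :=
  {h : (Fin m → Bool) → (Fin n → Bool) → Bool // ∀ y, ∃ p : MvPolynomial (Fin n) ℝ,
    p.totalDegree ≤ w ∧ ∀ x : Fin n → Bool,
      MvPolynomial.eval (fun i => if x i then (1 : ℝ) else 0) p = if h y x then 1 else 0}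

/-- The number of ones. -/
def ones {n : ℕ} (x : Fin n → Bool) : ℕ := (Finset.univ.filter fun i => x i = true).card

/-- The quantified statement `Q_0 y_0 … Q_{m-1} y_{m-1}, P y`, where `Q_i` is `∀` if `q i = true`
and `∃` otherwise. -/
def Quant : (m : ℕ) → (Fin m → Bool) → ((Fin m → Bool) → Prop) → Prop
  | 0, _, P => P (fun i => i.elim0)
  | m + 1, q, P =>
    if q 0 = true then ∀ b : Bool, Quant m (fun i => q i.succ) (fun y => P (Fin.cons b y))
    else ∃ b : Bool, Quant m (fun i => q i.succ) (fun y => P (Fin.cons b y))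

end H599.QB
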