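import Pool.Agent.H599R2.QB.Strong
import Pool.Agent.H599R2.QB.QDefs

/-!
# Weighted thresholds of formulas do not compute parity
-/

namespace H599.QB

open Finset
open Pool.Agent.H564R2.QF (Fml LowDeg)

section general

variable {V : Type} [Fintype V] [DecidableEq V]

/-- If the alternating sums of all the tests over one nonempty subcube vanish, then no weighted
threshold of the tests is parity. -/
theorem sign_contra {ι : Type*} [Fintype ι] (f : ι → (V → Bool) → Bool) (a : ι → ℝ) (θ : ℝ)
    (hpar : ∀ x, chi Finset.univ x = -1 ↔ θ < ∑ i, a i * (if f i x then (1 : ℝ) else 0))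
    {T : Finset V} (hT : T.Nonempty) (x : V → Bool)
    (h0 : ∀ i, alt T (fun y => if f i y then (1 : ℝ) else 0) x = 0) : False := by
  classical
  set F : (V → Bool) → ℝ := fun y => ∑ i, a i * (if f i y then (1 : ℝ) else 0) - θ with hF
  have hsum0 : ∑ U ∈ T.powerset, (-1 : ℝ) ^ U.card = 0 := by
    have h1 := Finset.prod_one_add (f := fun _ : V => (-1 : ℝ)) T
    rw [Finset.prod_const] at h1
    have h2 : ∑ U ∈ T.powerset, ∏ _i ∈ U, (-1 : ℝ) = ∑ U ∈ T.powerset, (-1 : ℝ) ^ U.card :=
      Finset.sum_congr rfl fun U _ => by rw [Finset.prod_const]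
    rw [← h2, ← h1]
    have : (1 : ℝ) + -1 = 0 := by norm_num
    rw [this, zero_pow (Finset.card_ne_zero.2 hT)]
  have halt : alt T F x = 0 := by
    have h1 : alt T F x = ∑ i, a i * alt T (fun y => if f i y then (1 : ℝ) else 0) x
        - θ * ∑ U ∈ T.powerset, (-1 : ℝ) ^ U.card := by
      unfold alt
      simp only [Finset.mul_sum]
      rw [Finset.sum_comm, ← Finset.sum_sub_distrib]
      refine Finset.sum_congr rfl fun U _ => ?_
      rw [hF]
      beta_reduce
      rw [mul_sub, Finset.mul_sum]
      congr 1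
      · exact Finset.sum_congr rfl fun i _ => by ring
      · ring
    rw [h1, hsum0, mul_zero, sub_zero]
    exact Finset.sum_eq_zero fun i _ => by rw [h0 i, mul_zero]
  have hchi : ∀ U ⊆ T, chi Finset.univ (flip U x) = (-1 : ℝ) ^ U.card * chi Finset.univ x := by
    intro U _
    rw [chi_flip, prod_ite_comm]
    simp
  have hpm : ∀ y : V → Bool, chi Finset.univ y = 1 ∨ chi Finset.univ y = -1 := by
    intro y
    have h1 : chi Finset.univ y * chi Finset.univ y = 1 := by
      rw [chi_mul, symmDiff_self]; simp [chi]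
    exact mul_self_eq_one_iff.1 h1
  have hnonneg : ∀ y : V → Bool, 0 ≤ - (chi Finset.univ y * F y) := by
    intro y
    rcases hpm y with h | h
    · have : ¬ θ < ∑ i, a i * (if f i y then (1 : ℝ) else 0) := by
        rw [← hpar y, h]; norm_num
      rw [h, hF]
      beta_reduce
      linarith
    · have := (hpar y).1 h
      rw [h, hF]
      beta_reduce
      linarith
  have hpos : ∀ y : V → Bool, chi Finset.univ y = -1 → 0 < - (chi Finset.univ y * F y) := by
    intro y h
    have := (hpar y).1 h
    rw [h, hF]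
    beta_reduce
    linarith
  have hkey : ∑ U ∈ T.powerset, - (chi Finset.univ (flip U x) * F (flip U x)) = 0 := by
    have h1 : ∑ U ∈ T.powerset, - (chi Finset.univ (flip U x) * F (flip U x))
        = - chi Finset.univ x * alt T F x := by
      unfold alt
      rw [Finset.mul_sum]
      refine Finset.sum_congr rfl fun U hU => ?_
      rw [hchi U (Finset.mem_powerset.1 hU)]
      ring
    rw [h1, halt, mul_zero]
  have hall := (Finset.sum_eq_zero_iff_of_nonneg fun U _ => hnonneg (flip U x)).1 hkey
  rcases hpm x with h | h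
  · obtain ⟨v, hv⟩ := hT
    have h1 : chi Finset.univ (flip {v} x) = -1 := by
      rw [hchi {v} (Finset.singleton_subset_iff.2 hv), h]; simp
    have h2 := hall {v} (Finset.mem_powerset.2 (Finset.singleton_subset_iff.2 hv))
    exact absurd h2 (hpos _ h1).ne'
  · have h1 : chi Finset.univ (flip ∅ x) = -1 := by
      rw [hchi ∅ (Finset.empty_subset T), h]; simp
    have h2 := hall ∅ (Finset.empty_mem_powerset T)
    exact absurd h2 (hpos _ h1).ne'

/-- Functions of degree smaller than the number of variables. -/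
theorem low_contra {ι : Type*} [Fintype ι] (f : ι → (V → Bool) → Bool) (a : ι → ℝ) (θ : ℝ)
    (hpar : ∀ x, chi Finset.univ x = -1 ↔ θ < ∑ i, a i * (if f i x then (1 : ℝ) else 0))
    {d : ℕ} (hd : d < Fintype.card V)
    (hf : ∀ i, (fun x => if f i x then (1 : ℝ) else 0) ∈ Deg V d) : False := by
  have hne : (Finset.univ : Finset V).Nonempty := by
    rw [← Finset.card_pos, Finset.card_univ]; omega
  refine sign_contra f a θ hpar hne (fun _ => false) fun i => ?_
  have h1 := sum_alt_sq (m := Fintype.card V) (hf i)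
  rw [Nat.choose_eq_zero_of_lt hd] at h1
  simp only [Nat.cast_zero, mul_zero, zero_mul] at h1
  have h2 : Finset.powersetCard (Fintype.card V) (Finset.univ : Finset V) = {Finset.univ} := by
    rw [← Finset.card_univ, Finset.powersetCard_self]
  rw [h2, Finset.sum_singleton] at h1
  have h3 : ∀ x ∈ (Finset.univ : Finset (V → Bool)),
      0 ≤ alt Finset.univ (fun x => if f i x then (1 : ℝ) else 0) x ^ 2 := fun x _ => sq_nonneg _
  have h4 := (Finset.sum_eq_zero_iff_of_nonneg h3).1 (le_antisymm h1 (Finset.sum_nonneg h3))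
  exact pow_eq_zero_iff (two_ne_zero) |>.1 (h4 _ (Finset.mem_univ _))

/-- Weighted thresholds of functions of small approximate degree. -/
theorem thr_lower {ι : Type} [Fintype ι] (f : ι → (V → Bool) → Bool) (a : ι → ℝ) (θ : ℝ)
    (hpar : ∀ x, chi Finset.univ x = -1 ↔ θ < ∑ i, a i * (if f i x then (1 : ℝ) else 0))
    {d m : ℕ} (hd : 16 * d ≤ Fintype.card V) (hm : m ≤ Fintype.card V) (hm0 : 0 < m)
    (happ : ∀ i, ∃ p ∈ Deg V d, (∀ x, |p x| ≤ 1) ∧
      ∀ x, |p x - (if f i x then 1 else 0)| ≤ 1 / 2 ^ (m + 1)) :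
    4 ^ m ≤ 4 * Fintype.card ι := by
  classical
  choose p hp hp1 hpe using happ
  set N := Fintype.card V with hN
  have hgood : ∀ T ∈ Finset.powersetCard m (Finset.univ : Finset V), ∀ x : V → Bool,
      (1 / 4 : ℝ) ≤ ∑ i, alt T (p i) x ^ 2 := by
    intro T hT x
    have hTm := (Finset.mem_powersetCard.1 hT).2
    have hTne : T.Nonempty := by
      rw [← Finset.card_pos]; omega
    obtain ⟨i, hi⟩ : ∃ i, alt T (fun y => if f i y then (1 : ℝ) else 0) x ≠ 0 := by
      by_contra hcon
      push Not at hcon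
      exact sign_contra f a θ hpar hTne x hcon
    -- the alternating sum is an integer
    have hint : ∃ z : ℤ, alt T (fun y => if f i y then (1 : ℝ) else 0) x = z := by
      refine ⟨∑ U ∈ T.powerset, (-1) ^ U.card * (if f i (flip U x) then 1 else 0), ?_⟩
      unfold alt
      push_cast
      rfl
    have h3 : 1 ≤ |alt T (fun y => if f i y then (1 : ℝ) else 0) x| := by
      obtain ⟨z, hz⟩ := hint
      rw [hz] at hi ⊢
      have hz0 : z ≠ 0 := by
        rintro rfl; exact hi (by simp)
      have : 1 ≤ |z| := Int.one_le_abs hz0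
      exact_mod_cast this
    have h5 : |alt T (p i) x - alt T (fun y => if f i y then 1 else 0) x| ≤ 1 / 2 := by
      have h6 : alt T (p i) x - alt T (fun y => if f i y then 1 else 0) x
          = ∑ U ∈ T.powerset, (-1 : ℝ) ^ U.card *
            (p i (flip U x) - if f i (flip U x) then 1 else 0) := by
        unfold alt
        rw [← Finset.sum_sub_distrib]
        exact Finset.sum_congr rfl fun U _ => by ring
      rw [h6]
      calc |∑ U ∈ T.powerset, (-1 : ℝ) ^ U.card * (p i (flip U x) - if f i (flip U x) then 1 else 0)|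
          ≤ ∑ U ∈ T.powerset, |(-1 : ℝ) ^ U.card *
            (p i (flip U x) - if f i (flip U x) then 1 else 0)| := Finset.abs_sum_le_sum_abs _ _
        _ ≤ ∑ U ∈ T.powerset, 1 / 2 ^ (m + 1) := by
            refine Finset.sum_le_sum fun U _ => ?_
            rw [abs_mul, abs_pow]
            simpa using hpe i (flip U x)
        _ = 1 / 2 := by
            rw [Finset.sum_const, Finset.card_powerset, hTm, nsmul_eq_mul]
            push_cast
            rw [pow_succ]
            field_simp
    have h7 : 1 / 2 ≤ |alt T (p i) x| := by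
      have := abs_sub_abs_le_abs_sub (alt T (fun y => if f i y then 1 else 0) x) (alt T (p i) x)
      rw [abs_sub_comm] at this
      linarith
    have h8 : (1 / 4 : ℝ) ≤ alt T (p i) x ^ 2 := by
      rw [← sq_abs]; nlinarith [abs_nonneg (alt T (p i) x)]
    exact h8.trans (Finset.single_le_sum (f := fun i => alt T (p i) x ^ 2)
      (fun j _ => sq_nonneg _) (Finset.mem_univ i))
  have hsum : (N.choose m : ℝ) * 2 ^ N * (1 / 4) ≤ 4 ^ m * (d.choose m) *
      (Fintype.card ι * 2 ^ N) := by
    calc (N.choose m : ℝ) * 2 ^ N * (1 / 4)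
        = ∑ T ∈ Finset.powersetCard m (Finset.univ : Finset V), ∑ _x : V → Bool, (1 / 4 : ℝ) := by
          simp only [Finset.sum_const, Finset.card_powersetCard, Finset.card_univ, nsmul_eq_mul,
            Fintype.card_fun, Fintype.card_bool, ← hN]
          push_cast; ring
      _ ≤ ∑ T ∈ Finset.powersetCard m (Finset.univ : Finset V), ∑ x : V → Bool,
            ∑ i, alt T (p i) x ^ 2 :=
          Finset.sum_le_sum fun T hT => Finset.sum_le_sum fun x _ => hgood T hT x
      _ = ∑ i, ∑ T ∈ Finset.powersetCard m (Finset.univ : Finset V), ∑ x : V → Bool,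
            alt T (p i) x ^ 2 := by
          rw [Finset.sum_comm]
          have : ∀ T ∈ Finset.powersetCard m (Finset.univ : Finset V),
              ∑ x : V → Bool, ∑ i, alt T (p i) x ^ 2 = ∑ i, ∑ x : V → Bool, alt T (p i) x ^ 2 :=
            fun T _ => Finset.sum_comm
          rw [Finset.sum_comm, Finset.sum_congr rfl this, Finset.sum_comm]
      _ ≤ ∑ _i : ι, 4 ^ m * (d.choose m : ℝ) * 2 ^ N := by
          refine Finset.sum_le_sum fun i _ => (sum_alt_sq (hp i)).trans ?_
          refine mul_le_mul_of_nonneg_left ?_ (by positivity)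
          calc ∑ x, p i x ^ 2 ≤ ∑ _x : V → Bool, (1 : ℝ) := by
                refine Finset.sum_le_sum fun x _ => ?_
                rw [← sq_abs]
                nlinarith [hp1 i x, abs_nonneg (p i x)]
            _ = 2 ^ N := by simp [hN]
      _ = 4 ^ m * (d.choose m) * (Fintype.card ι * 2 ^ N) := by
          rw [Finset.sum_const, Finset.card_univ, nsmul_eq_mul]; ring
  have h2N : (0 : ℝ) < 2 ^ N := by positivity
  have hsum2 : (N.choose m : ℝ) ≤ 4 * 4 ^ m * (d.choose m) * Fintype.card ι := by
    have : (N.choose m : ℝ) * 2 ^ N ≤ (4 * 4 ^ m * (d.choose m) * Fintype.card ι) * 2 ^ N := by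
      linarith
    exact le_of_mul_le_mul_right this h2N
  have hsum3 : N.choose m ≤ 4 * 4 ^ m * (d.choose m) * Fintype.card ι := by exact_mod_cast hsum2
  have hpos : 0 < N.choose m := Nat.choose_pos hm
  have hcpos : 0 < 4 ^ m * d.choose m := by
    rcases Nat.eq_zero_or_pos (4 ^ m * d.choose m) with h | h
    · have : 4 * 4 ^ m * d.choose m * Fintype.card ι = 0 := by
        rw [mul_assoc 4, h]; simp
      omega
    · exact h
  have h16 := choose_le hd m
  have : (4 ^ m * d.choose m) * 4 ^ m ≤ (4 ^ m * d.choose m) * (4 * Fintype.card ι) := by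
    calc (4 ^ m * d.choose m) * 4 ^ m = 16 ^ m * d.choose m := by
          rw [show (16 : ℕ) = 4 * 4 from rfl, mul_pow]; ring
      _ ≤ N.choose m := h16
      _ ≤ _ := hsum3
      _ = _ := by ring
  exact Nat.le_of_mul_le_mul_left this hcpos

end general

/-! ### Formulas -/

theorem ite_mem' {n : ℕ} (i : Fin n) :
    (fun z : Fin n → Bool => if z i then (1 : ℝ) else 0) ∈ Deg (Fin n) 1 := by
  have e : (fun z : Fin n → Bool => if z i then (1 : ℝ) else 0)
      = (fun _ => (1 / 2 : ℝ)) + (-1 / 2 : ℝ) • fun z : Fin n → Bool => sg (z i) := by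
    funext z
    simp only [Pi.add_apply, Pi.smul_apply, smul_eq_mul]
    rw [sg_eq]; ring
  rw [e]
  exact Submodule.add_mem _ (const_mem _ _) (Submodule.smul_mem _ _ (coord_mem _))

theorem eval_mem' {n w : ℕ} {p : MvPolynomial (Fin n) ℝ} (hp : p.totalDegree ≤ w) :
    (fun z : Fin n → Bool => MvPolynomial.eval (fun i => if z i then (1 : ℝ) else 0) p)
      ∈ Deg (Fin n) w := by
  have e : (fun z : Fin n → Bool =>
      MvPolynomial.eval (fun i => if z i then (1 : ℝ) else 0) p)
      = fun z => ∑ d ∈ p.support, p.coeff d * ∏ i, (if z i then (1 : ℝ) else 0) ^ d i := by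
    funext z
    rw [MvPolynomial.eval_eq']
  rw [e]
  refine sum_mem' _ _ fun d hd => Submodule.smul_mem _ (p.coeff d) ?_
  have hdeg : ∑ i, d i ≤ w := by
    have h1 := MvPolynomial.le_totalDegree hd
    refine le_trans (le_of_eq ?_) (h1.trans hp)
    rw [Finsupp.sum_fintype]
    intro i; rfl
  have key : ∀ S : Finset (Fin n),
      (fun z : Fin n → Bool => ∏ i ∈ S, (if z i then (1 : ℝ) else 0) ^ d i)
        ∈ Deg (Fin n) (∑ i ∈ S, d i) := by
    intro S
    induction S using Finset.induction_on with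
    | empty => simpa using const_mem (V := Fin n) 1 0
    | insert a S ha ih =>
      have e2 : (fun z : Fin n → Bool => ∏ i ∈ insert a S,
          (if z i then (1 : ℝ) else 0) ^ d i) = fun z =>
          (if z a then (1 : ℝ) else 0) ^ d a *
            ∏ i ∈ S, (if z i then (1 : ℝ) else 0) ^ d i := by
        funext z; rw [Finset.prod_insert ha]
      rw [e2, Finset.sum_insert ha]
      have h3 := pow_mem (ite_mem' (n := n) a) (d a)
      rw [mul_one] at h3
      exact mul_mem h3 ih
  exact Deg.mono hdeg (key Finset.univ)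

theorem leaf_mem' {n w : ℕ} {h : (Fin n → Bool) → Bool} (hh : HasDegree w h) :
    (fun z : Fin n → Bool => sg (h z)) ∈ Deg (Fin n) w := by
  obtain ⟨p, hp, hp'⟩ := hh
  have e : (fun z : Fin n → Bool => sg (h z)) = (fun _ => (1 : ℝ)) + (-2 : ℝ) •
      fun z => MvPolynomial.eval (fun i => if z i then (1 : ℝ) else 0) p := by
    funext z
    simp only [Pi.add_apply, Pi.smul_apply, smul_eq_mul]
    rw [hp' z, sg_eq]; ring
  rw [e]
  exact Submodule.add_mem _ (const_mem _ _) (Submodule.smul_mem _ _ (eval_mem' hp))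

theorem subst_mem' {n m w D : ℕ} {P : (GLeaf n m w → Bool) → ℝ}
    (hP : P ∈ LowDeg (GLeaf n m w) D) (y : Fin m → Bool) :
    (fun z : Fin n → Bool => P (fun g => g.1 y z)) ∈ Deg (Fin n) (D * w) := by
  induction hP using Submodule.span_induction with
  | mem f hf =>
    obtain ⟨S, hS, rfl⟩ := hf
    have e : (fun z : Fin n → Bool =>
        Pool.Agent.H564R2.QF.chi S (fun g : GLeaf n m w => g.1 y z))
        = fun z => ∏ g ∈ S, sg (g.1 y z) := rfl
    rw [e]
    exact Deg.mono (Nat.mul_le_mul_right w hS)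
      (prod_mem S w (fun g z => sg (g.1 y z)) fun g _ => leaf_mem' (g.2 y))
  | zero => exact Submodule.zero_mem _
  | add f g _ _ ihf ihg => exact Submodule.add_mem _ ihf ihg
  | smul a f _ ihf => exact Submodule.smul_mem _ a ihf

theorem fml_deg {n m w : ℕ} (φ : Fml (GLeaf n m w)) (y : Fin m → Bool) :
    (fun z : Fin n → Bool => if φ.eval (fun g => g.1 y z) then (1 : ℝ) else 0)
      ∈ Deg (Fin n) (φ.size * w) := by
  induction φ with
  | const b => exact const_mem (V := Fin n) (if b then (1 : ℝ) else 0) _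
  | var g =>
    have e : (fun z : Fin n → Bool => if (Fml.var g).eval (fun g => g.1 y z) then (1 : ℝ) else 0)
        = (fun _ => (1 / 2 : ℝ)) + (-1 / 2 : ℝ) • fun z : Fin n → Bool => sg (g.1 y z) := by
      funext z
      simp only [Pi.add_apply, Pi.smul_apply, smul_eq_mul]
      rw [sg_eq]
      change (if g.1 y z = true then (1 : ℝ) else 0) = _
      ring
    rw [e]
    exact Submodule.add_mem _ (const_mem _ _) (Submodule.smul_mem _ _
      (Deg.mono (by simp [Fml.size]) (leaf_mem' (g.2 y))))
  | neg φ ih =>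
    have e : (fun z : Fin n → Bool => if (Fml.neg φ).eval (fun g => g.1 y z) then (1 : ℝ) else 0)
        = (fun _ => (1 : ℝ)) + (-1 : ℝ) •
          fun z : Fin n → Bool => if φ.eval (fun g => g.1 y z) then (1 : ℝ) else 0 := by
      funext z
      simp only [Pi.add_apply, Pi.smul_apply, smul_eq_mul]
      change (if (!φ.eval (fun g => g.1 y z)) = true then (1 : ℝ) else 0) = _
      cases φ.eval (fun g => g.1 y z) <;> norm_num
    rw [e]
    exact Submodule.add_mem _ (const_mem _ _) (Submodule.smul_mem _ _ ih)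
  | and φ ψ ih1 ih2 =>
    have e : (fun z : Fin n → Bool => if (Fml.and φ ψ).eval (fun g => g.1 y z) then (1 : ℝ) else 0)
        = fun z : Fin n → Bool => (if φ.eval (fun g => g.1 y z) then (1 : ℝ) else 0) *
          (if ψ.eval (fun g => g.1 y z) then (1 : ℝ) else 0) := by
      funext z
      change (if (φ.eval (fun g => g.1 y z) && ψ.eval (fun g => g.1 y z)) = true
        then (1 : ℝ) else 0) = _
      cases φ.eval (fun g => g.1 y z) <;> cases ψ.eval (fun g => g.1 y z) <;> norm_num
    rw [e]
    have e2 : (Fml.and φ ψ).size * w = φ.size * w + ψ.size * w := by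
      change (φ.size + ψ.size) * w = _
      ring
    rw [e2]
    exact mul_mem ih1 ih2
  | or φ ψ ih1 ih2 =>
    have e : (fun z : Fin n → Bool => if (Fml.or φ ψ).eval (fun g => g.1 y z) then (1 : ℝ) else 0)
        = ((fun z : Fin n → Bool => (if φ.eval (fun g => g.1 y z) then (1 : ℝ) else 0)) +
          (fun z : Fin n → Bool => (if ψ.eval (fun g => g.1 y z) then (1 : ℝ) else 0))) +
          (-1 : ℝ) • fun z : Fin n → Bool => (if φ.eval (fun g => g.1 y z) then (1 : ℝ) else 0) *
          (if ψ.eval (fun g => g.1 y z) then (1 : ℝ) else 0) := by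
      funext z
      simp only [Pi.add_apply, Pi.smul_apply, smul_eq_mul]
      change (if (φ.eval (fun g => g.1 y z) || ψ.eval (fun g => g.1 y z)) = true
        then (1 : ℝ) else 0) = _
      cases φ.eval (fun g => g.1 y z) <;> cases ψ.eval (fun g => g.1 y z) <;> norm_num
    rw [e]
    have e2 : (Fml.or φ ψ).size * w = φ.size * w + ψ.size * w := by
      change (φ.size + ψ.size) * w = _
      ring
    rw [e2]
    exact Submodule.add_mem _ (Submodule.add_mem _ (Deg.mono (Nat.le_add_right _ _) ih1)
      (Deg.mono (Nat.le_add_left _ _) ih2)) (Submodule.smul_mem _ _ (mul_mem ih1 ih2))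

theorem chi_ones {n : ℕ} (x : Fin n → Bool) : chi Finset.univ x = (-1 : ℝ) ^ ones x := by
  unfold chi ones
  rw [← Finset.prod_const, Finset.prod_filter]
  refine Finset.prod_congr rfl fun i _ => ?_
  unfold sg
  rfl

theorem chi_odd {n : ℕ} (x : Fin n → Bool) : chi Finset.univ x = (-1 : ℝ) ↔ Odd (ones x) := by
  rw [chi_ones]
  rcases Nat.even_or_odd (ones x) with h | h
  · rw [h.neg_one_pow]
    constructor
    · intro h2; norm_num at h2
    · intro h2; exact absurd h (Nat.not_even_iff_odd.2 h2)
  · rw [h.neg_one_pow]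
    exact ⟨fun _ => h, fun _ => rfl⟩

theorem family_nat {n m w K T : ℕ} (hT : 1 ≤ T) (hw : 0 < w) (φ : Fml (GLeaf n m w))
    (hs : φ.size ≤ K * T ^ 2) (hKT : 204480 * K * T * w ≤ n)
    (a : (Fin m → Bool) → ℝ) (θ : ℝ)
    (hpar : ∀ x : Fin n → Bool, Odd (ones x) ↔
      θ < ∑ y, a y * (if φ.eval (fun g => g.1 y x) then (1 : ℝ) else 0)) :
    4 ^ K ≤ 16 * 2 ^ m := by
  have h2m : 1 ≤ 2 ^ m := Nat.one_le_two_pow
  obtain _ | k := K
  · simp only [pow_zero]; omega
  · obtain _ | k := k
    · simp only [zero_add, pow_one]; omega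
    · set K := k + 1 with hK
      have hmain : 4 ^ K ≤ 4 * Fintype.card (Fin m → Bool) := by
        refine thr_lower (V := Fin n) (fun y x => φ.eval (fun g => g.1 y x)) a θ
          (fun x => by rw [chi_odd]; exact hpar x) (d := 12780 * (K + 1) * T * w) (m := K)
          ?_ ?_ (Nat.succ_pos k) ?_
        · rw [Fintype.card_fin]
          calc 16 * (12780 * (K + 1) * T * w) = 204480 * (K + 1) * T * w := by ring
            _ ≤ n := hKT
        · rw [Fintype.card_fin]
          refine le_trans ?_ hKT
          have h1 : 1 ≤ T * w := Nat.mul_pos hT hw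
          calc K ≤ 204480 * (K + 1) := by omega
            _ = 204480 * (K + 1) * 1 := (mul_one _).symm
            _ ≤ 204480 * (K + 1) * (T * w) := Nat.mul_le_mul_left _ h1
            _ = _ := by ring
        · intro y
          obtain ⟨P0, hP0, hP0'⟩ := Pool.Agent.H564R2.QF.formula_approx_of
            Pool.Agent.H564R2.QF.approx_const Pool.Agent.H564R2.QF.decomp
            Pool.Agent.H564R2.QF.robust φ (K + 1) T (Nat.succ_pos K) hT hs
          set P : (Fin n → Bool) → ℝ := fun z => P0 (fun g => g.1 y z) with hPdef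
          have hP : P ∈ Deg (Fin n) (12780 * (K + 1) * T * w) := subst_mem' hP0 y
          have hP' : ∀ z : Fin n → Bool,
              |P z - (if φ.eval (fun g => g.1 y z) = true then 1 else 0)| ≤ (1 / 4) ^ (K + 1) :=
            fun z => hP0' _
          have he0 : (0 : ℝ) < (1 / 4) ^ (K + 1) := by positivity
          have he : ((1 : ℝ) / 4) ^ (K + 1) ≤ 1 / 2 ^ (K + 1) / 2 := by
            have e1 : ((1 : ℝ) / 4) ^ (K + 1) = 1 / 2 ^ (K + 1) * (1 / 2 ^ (K + 1)) := by
              rw [show (1 / 4 : ℝ) = 1 / 2 * (1 / 2) by norm_num, mul_pow, one_div_pow]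
            have e2 : (1 : ℝ) / 2 ^ (K + 1) ≤ 1 / 2 := by
              apply one_div_le_one_div_of_le (by norm_num)
              calc (2 : ℝ) = 2 ^ 1 := by norm_num
                _ ≤ 2 ^ (K + 1) := pow_le_pow_right₀ (by norm_num) (by omega)
            rw [e1, div_eq_mul_one_div (1 / 2 ^ (K + 1)) (2 : ℝ)]
            exact mul_le_mul_of_nonneg_left e2 (by positivity)
          set e : ℝ := (1 / 4) ^ (K + 1) with hedef
          refine ⟨(1 / (1 + e)) • P, Submodule.smul_mem _ _ hP, fun z => ?_, fun z => ?_⟩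
          · have h1 := abs_le.1 (hP' z)
            rw [Pi.smul_apply, smul_eq_mul, abs_mul, abs_of_pos (by positivity : 0 < 1 / (1 + e)),
              one_div, inv_mul_le_iff₀ (by positivity), mul_one, abs_le]
            split_ifs at h1 <;> constructor <;> linarith [h1.1, h1.2]
          · have h1 := abs_le.1 (hP' z)
            have hpos : 0 < 1 + e := by positivity
            have h2 : ((1 / (1 + e)) • P) z = P z / (1 + e) := by
              rw [Pi.smul_apply, smul_eq_mul]; ring
            rw [h2]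
            have h3 : P z / (1 + e) - (if φ.eval (fun g => g.1 y z) = true then (1 : ℝ) else 0)
                = ((P z - (if φ.eval (fun g => g.1 y z) = true then (1 : ℝ) else 0))
                  - e * (if φ.eval (fun g => g.1 y z) = true then (1 : ℝ) else 0))
                    / (1 + e) := by
              field_simp
              ring
            rw [h3, abs_div, abs_of_pos hpos, div_le_iff₀ hpos]
            have h4 : (1 : ℝ) / 2 ^ (K + 1) * (1 + e) ≥ 1 / 2 ^ (K + 1) := by
              have : (0 : ℝ) < 1 / 2 ^ (K + 1) := by positivity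
              nlinarith
            refine le_trans ?_ h4
            rw [abs_le]
            split_ifs at h1 ⊢ <;> constructor <;> linarith [h1.1, h1.2]
      rw [Fintype.card_fun, Fintype.card_bool, Fintype.card_fin] at hmain
      calc 4 ^ (K + 1) = 4 * 4 ^ K := by ring
        _ ≤ 4 * (4 * 2 ^ m) := Nat.mul_le_mul_left 4 hmain
        _ = _ := by ring

theorem family_lower {n m w : ℕ} (hn : 0 < n) (φ : Fml (GLeaf n m w))
    (a : (Fin m → Bool) → ℝ) (θ : ℝ)
    (hpar : ∀ x : Fin n → Bool, Odd (ones x) ↔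
      θ < ∑ y, a y * (if φ.eval (fun g => g.1 y x) then (1 : ℝ) else 0)) :
    (n : ℝ) ^ 2 ≤ 6 * 10 ^ 11 * (w : ℝ) ^ 2 * φ.size * (m + 1) := by
  have hnws : n ≤ φ.size * w := by
    by_contra hcon
    push Not at hcon
    exact low_contra (V := Fin n) (fun y x => φ.eval (fun g => g.1 y x)) a θ
      (fun x => by rw [chi_odd]; exact hpar x) (d := φ.size * w)
      (by rw [Fintype.card_fin]; exact hcon) (fun y => fml_deg φ y)
  set s := φ.size with hs
  have hs0 : 0 < s := by
    rcases Nat.eq_zero_or_pos s with h | h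
    · rw [h] at hnws; omega
    · exact h
  have hw : 0 < w := by
    rcases Nat.eq_zero_or_pos w with h | h
    · rw [h] at hnws; omega
    · exact h
  have hsR : (1 : ℝ) ≤ s := by exact_mod_cast hs0
  have hwR : (0 : ℝ) < w := by exact_mod_cast hw
  have hnR : (0 : ℝ) < n := by exact_mod_cast hn
  have hMsR : (n : ℝ) ≤ w * s := by
    have : (n : ℝ) ≤ s * w := by exact_mod_cast hnws
    linarith
  obtain ⟨x, hx⟩ : ∃ x : ℝ, x = (n : ℝ) ^ 2 / (408960 ^ 2 * (w : ℝ) ^ 2 * s) := ⟨_, rfl⟩
  have hx0 : 0 ≤ x := by rw [hx]; positivity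
  have hNx : (n : ℝ) ^ 2 = x * (408960 ^ 2 * (w : ℝ) ^ 2 * s) := by
    rw [hx]; field_simp
  obtain ⟨K, hK⟩ : ∃ K : ℕ, K = ⌊x⌋₊ := ⟨_, rfl⟩
  have hKx : (K : ℝ) ≤ x := by rw [hK]; exact Nat.floor_le hx0
  have hxK : x < K + 1 := by rw [hK]; exact Nat.lt_floor_add_one x
  have hmain : 4 ^ K ≤ 16 * 2 ^ m := by
    rcases Nat.eq_zero_or_pos K with h0 | hpos
    · have h2m : 1 ≤ 2 ^ m := Nat.one_le_two_pow
      rw [h0, pow_zero]; omega
    · have hKR : (1 : ℝ) ≤ K := by exact_mod_cast hpos
      obtain ⟨q, hq⟩ : ∃ q : ℝ, q = Real.sqrt ((s : ℝ) / K) := ⟨_, rfl⟩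
      have hq2 : K * q ^ 2 = s := by
        rw [hq, Real.sq_sqrt (by positivity)]; field_simp
      have hq0 : 0 ≤ q := by rw [hq]; exact Real.sqrt_nonneg _
      have hxs : x ≤ s := by
        have h1 : x * (408960 ^ 2 * (w : ℝ) ^ 2 * s) ≤ s * (408960 ^ 2 * (w : ℝ) ^ 2 * s) := by
          rw [← hNx]
          calc (n : ℝ) ^ 2 ≤ (w * s) ^ 2 := pow_le_pow_left₀ hnR.le hMsR 2
            _ = 1 * ((w : ℝ) ^ 2 * s * s) := by ring
            _ ≤ 408960 ^ 2 * ((w : ℝ) ^ 2 * s * s) := by
                apply mul_le_mul_of_nonneg_right (by norm_num) (by positivity)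
            _ = _ := by ring
        exact le_of_mul_le_mul_right h1 (by positivity)
      have hq1 : 1 ≤ q := by
        rw [hq, ← Real.sqrt_one]
        apply Real.sqrt_le_sqrt
        rw [le_div_iff₀ (by positivity), one_mul]
        exact hKx.trans hxs
      obtain ⟨T, hTdef⟩ : ∃ T : ℕ, T = ⌈q⌉₊ := ⟨_, rfl⟩
      have hT1 : q ≤ T := by rw [hTdef]; exact Nat.le_ceil q
      have hT2 : (T : ℝ) ≤ 2 * q := by
        have := Nat.ceil_lt_add_one hq0
        rw [← hTdef] at this
        linarith
      have hT0 : 1 ≤ T := by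
        have : (0 : ℝ) < T := by linarith
        exact_mod_cast this
      have hsT : s ≤ K * T ^ 2 := by
        have : (s : ℝ) ≤ K * (T : ℝ) ^ 2 := by
          rw [← hq2]
          exact mul_le_mul_of_nonneg_left (pow_le_pow_left₀ hq0 hT1 2) (by positivity)
        exact_mod_cast this
      have hKqw : 408960 * (K * q * w) ≤ (n : ℝ) := by
        refine le_of_sq_le_sq ?_ hnR.le
        rw [hNx]
        calc (408960 * (K * q * w)) ^ 2 = K * (408960 ^ 2 * (w : ℝ) ^ 2 * (K * q ^ 2)) := by ring
          _ = K * (408960 ^ 2 * (w : ℝ) ^ 2 * s) := by rw [hq2]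
          _ ≤ _ := mul_le_mul_of_nonneg_right hKx (by positivity)
      have hKT : 204480 * K * T * w ≤ n := by
        have : (204480 : ℝ) * K * T * w ≤ n := by
          calc (204480 : ℝ) * K * T * w ≤ 204480 * K * (2 * q) * w := by gcongr
            _ = 408960 * (K * q * w) := by ring
            _ ≤ _ := hKqw
        exact_mod_cast this
      exact family_nat hT0 hw φ hsT hKT a θ hpar
  have h2K : 2 * K ≤ m + 4 := by
    have h1 : 2 ^ (2 * K) ≤ 2 ^ (m + 4) := by
      calc 2 ^ (2 * K) = 4 ^ K := by rw [pow_mul]; norm_num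
        _ ≤ 16 * 2 ^ m := hmain
        _ = 2 ^ (m + 4) := by rw [pow_add]; ring
    exact (Nat.pow_le_pow_iff_right (by norm_num)).1 h1
  have h2KR : 2 * (K : ℝ) ≤ m + 4 := by exact_mod_cast h2K
  have hm0 : (0 : ℝ) ≤ m := Nat.cast_nonneg m
  rw [hNx]
  calc x * (408960 ^ 2 * (w : ℝ) ^ 2 * s) = 408960 ^ 2 * x * ((w : ℝ) ^ 2 * s) := by ring
    _ ≤ (6 * 10 ^ 11 * (m + 1)) * ((w : ℝ) ^ 2 * s) := by
        apply mul_le_mul_of_nonneg_right _ (by positivity)
        nlinarith
    _ = _ := by ring

end H599.QB
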