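import Pool.Agent.H599R2.QB.QbfLemmas

/-!
# Quantified parity: the lower bound
-/

namespace H599.QB

open Finset

theorem chi_univ_eq {M : ℕ} (z : Fin (M + 1) → Bool) : sg (pz (ex z) M) = chi Finset.univ z := by
  rw [sg_pz, Finset.prod_range]
  unfold chi
  refine Finset.prod_congr rfl fun i _ => ?_
  unfold ex
  rw [dif_pos i.2]

theorem lower_nat {M w s L r : ℕ} (hw : 0 < w) (hr0 : 0 < r) (hr : s ≤ r ^ 2)
    (R : Refutation (qparity M) L) (hR : R.ReducesTo w s) :
    4 ^ ((M + 1) / (6400 * r * w)) ≤ 4 * R.reductions := by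
  classical
  unfold Refutation.reductions
  set red := (Finset.univ.filter fun j => (R.just j).isSome = true) with hred
  set m := (M + 1) / (6400 * r * w) with hm
  let emb := red.orderEmbOfFin rfl
  have hemb : ∀ i, (R.just (emb i)).isSome = true := fun i =>
    (Finset.mem_filter.1 (red.orderEmbOfFin_mem rfl i)).2
  have hsurj : ∀ j, (R.just j).isSome = true → ∃ i, emb i = j := by
    intro j hj
    have h1 : j ∈ Set.range emb := by
      rw [Finset.range_orderEmbOfFin]
      exact Finset.mem_coe.2 (Finset.mem_filter.2 ⟨Finset.mem_univ _, hj⟩)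
    exact h1
  let b : Fin red.card → Bool := fun i => ((R.just (emb i)).map fun t => t.2.2).getD false
  have hlist : ∀ z : Fin (M + 1) → Bool, ∃ i, (!(R.line (emb i) (ext0 M z))) = true ∧
      (∀ j < i, (!(R.line (emb j) (ext0 M z))) = false) ∧ sg (b i) = chi Finset.univ z := by
    intro z
    obtain ⟨j, i, u, c, h1, h2, h3, h4⟩ := extraction R z
    obtain ⟨k, rfl⟩ := hsurj j (by rw [h1]; rfl)
    refine ⟨k, by rw [h2]; rfl, fun j hj => ?_, ?_⟩
    · rw [h3 (emb j) (emb.lt_iff_lt.2 hj) (hemb j)]; rfl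
    · have h5 : b k = c := by
        change ((R.just (emb k)).map fun t => t.2.2).getD false = c
        rw [h1]; rfl
      rw [h5, h4, chi_univ_eq]
  rcases Nat.eq_zero_or_pos m with h0 | hpos
  · rw [h0]
    obtain ⟨i, _⟩ := hlist fun _ => false
    have := i.2
    omega
  · have hmle : m * (6400 * r * w) ≤ M + 1 := Nat.div_mul_le_self _ _
    have hrw : 0 < r * w := Nat.mul_pos hr0 hw
    refine list_lower (V := Fin (M + 1)) (fun i z => !(R.line (emb i) (ext0 M z))) b
      (d := (12 * m + 13) * (16 * r * w)) (m := m) ?_ ?_ ?_ hlist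
    · rw [Fintype.card_fin]
      calc 16 * ((12 * m + 13) * (16 * r * w)) ≤ 16 * ((25 * m) * (16 * r * w)) := by
            refine Nat.mul_le_mul_left _ (Nat.mul_le_mul_right _ (by omega))
        _ = m * (6400 * r * w) := by ring
        _ ≤ M + 1 := hmle
    · rw [Fintype.card_fin]
      refine le_trans ?_ hmle
      have : 1 ≤ 6400 * r * w := by
        rw [mul_assoc]; omega
      calc m = m * 1 := (mul_one m).symm
        _ ≤ _ := Nat.mul_le_mul_left m this
    · intro i
      obtain ⟨s', hs', hF⟩ := hR (emb i) (hemb i)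
      have h1 := (hF.hasAdv (M := M)).neg
      have hK : 256 * s' ≤ (16 * r) ^ 2 := by
        rw [mul_pow]
        calc 256 * s' ≤ 256 * r ^ 2 := Nat.mul_le_mul_left _ (hs'.trans hr)
          _ = _ := by norm_num
      exact approx hF.pos (fun h hh => hh) h1 hK m

theorem lower {M w s L : ℕ} (hw : 0 < w) (hs : 0 < s)
    (R : Refutation (qparity M) L) (hR : R.ReducesTo w s) :
    (2 : ℝ) ^ (((M : ℝ) + 1) / (6400 * w * Real.sqrt s)) ≤ 16 * R.reductions := by
  have hsR : (1 : ℝ) ≤ s := by exact_mod_cast hs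
  have hwR : (0 : ℝ) < w := by exact_mod_cast hw
  have hq1 : 1 ≤ Real.sqrt s := by
    rw [← Real.sqrt_one]; exact Real.sqrt_le_sqrt hsR
  set r := ⌈Real.sqrt s⌉₊ with hrdef
  have hr1 : Real.sqrt s ≤ r := Nat.le_ceil _
  have hr2 : (r : ℝ) ≤ 2 * Real.sqrt s := by
    have := Nat.ceil_lt_add_one (Real.sqrt_nonneg (s : ℝ))
    linarith
  have hr0 : 0 < r := Nat.ceil_pos.2 (by linarith)
  have hrR : (0 : ℝ) < r := by exact_mod_cast hr0
  have hsr : s ≤ r ^ 2 := by
    have h1 : (s : ℝ) ≤ (r : ℝ) ^ 2 := by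
      calc (s : ℝ) = Real.sqrt s ^ 2 := (Real.sq_sqrt (by linarith)).symm
        _ ≤ _ := pow_le_pow_left₀ (Real.sqrt_nonneg _) hr1 2
    exact_mod_cast h1
  have hl := lower_nat hw hr0 hsr R hR
  set m := (M + 1) / (6400 * r * w) with hm
  have hlR : (4 : ℝ) ^ m ≤ 4 * R.reductions := by exact_mod_cast hl
  have hden : 0 < 6400 * r * w := by positivity
  have hm1 : M + 1 < (m + 1) * (6400 * r * w) := by
    have h2 := Nat.div_add_mod (M + 1) (6400 * r * w)
    have h3 := Nat.mod_lt (M + 1) hden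
    rw [← hm] at h2
    calc M + 1 = 6400 * r * w * m + (M + 1) % (6400 * r * w) := h2.symm
      _ < 6400 * r * w * m + 6400 * r * w := by omega
      _ = _ := by ring
  have hm2 : (M : ℝ) + 1 < ((m : ℝ) + 1) * (6400 * r * w) := by exact_mod_cast hm1
  have hx : ((M : ℝ) + 1) / (6400 * w * Real.sqrt s) ≤ 2 * m + 2 := by
    rw [div_le_iff₀ (by positivity)]
    calc (M : ℝ) + 1 ≤ ((m : ℝ) + 1) * (6400 * r * w) := hm2.le
      _ ≤ ((m : ℝ) + 1) * (6400 * (2 * Real.sqrt s) * w) := by gcongr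
      _ = _ := by ring
  calc (2 : ℝ) ^ (((M : ℝ) + 1) / (6400 * w * Real.sqrt s))
      ≤ (2 : ℝ) ^ ((2 * m + 2 : ℕ) : ℝ) := by
        refine Real.rpow_le_rpow_of_exponent_le (by norm_num) ?_
        push_cast
        exact hx
    _ = 4 * 4 ^ m := by
        rw [Real.rpow_natCast, pow_add, pow_mul]; norm_num; ring
    _ ≤ _ := by linarith

end H599.QB
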