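import Pool.Agent.H599R2.QB.Upper

/-!
# Quantified parity: refutations with small formulas
-/

namespace H599.QB

open Finset

/-- the blocks of the variables `x_i` -/
def blk (M B i : ℕ) : Finset (Fin (2 * M + 3)) := (xs M).filter fun v => v.1 / B = i

theorem blk_card {M B : ℕ} (hB : 0 < B) (i : ℕ) : (blk M B i).card ≤ B := by
  have h : (blk M B i).card ≤ (Finset.Ico (i * B) (i * B + B)).card := by
    refine Finset.card_le_card_of_injOn (fun v => v.1) (fun v hv => ?_)
      (fun a _ b _ h => Fin.ext h)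
    have h1 := (Finset.mem_filter.1 hv).2
    have h2 := Nat.div_add_mod v.1 B
    have h3 := Nat.mod_lt v.1 hB
    rw [h1, mul_comm B i] at h2
    simp only [Finset.coe_Ico, Set.mem_Ico]
    constructor <;> omega
  simpa using h

theorem par_blk {M B j : ℕ} (hMB : M + 1 ≤ (j + 1) * B) (y : Fin (2 * M + 3) → Bool) :
    par (xs M) y = pz (fun i => par (blk M B i) y) j := by
  apply sg_inj
  rw [sg_par, sg_pz]
  unfold chi
  rw [← Finset.prod_fiberwise_of_maps_to (s := xs M) (t := Finset.range (j + 1))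
    (g := fun v => v.1 / B) (fun v hv => ?_)]
  · refine Finset.prod_congr rfl fun i _ => ?_
    rw [sg_par]; rfl
  · have h1 := (Finset.mem_filter.1 hv).2
    rw [Finset.mem_range]
    rw [mul_comm (j + 1) B] at hMB
    exact Nat.div_lt_of_lt_mul (by omega)

/-- the blocks `0, …, j` have the parities given by `a` -/
def pat (M B : ℕ) (a : ℕ → Bool) : ℕ → (Fin (2 * M + 3) → Bool) → Bool
  | 0, y => !(par (blk M B 0) y ^^ a 0)
  | i + 1, y => pat M B a i y && !(par (blk M B (i + 1)) y ^^ a (i + 1))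

theorem pat_iff (M B : ℕ) (a : ℕ → Bool) (j : ℕ) (y : Fin (2 * M + 3) → Bool) :
    pat M B a j y = true ↔ ∀ i ≤ j, par (blk M B i) y = a i := by
  induction j with
  | zero =>
    simp [pat]
  | succ j ih =>
    unfold pat
    rw [Bool.and_eq_true, ih]
    constructor
    · rintro ⟨h1, h2⟩ i hi
      rcases Nat.lt_or_ge i (j + 1) with h | h
      · exact h1 i (by omega)
      · have : i = j + 1 := by omega
        subst this
        simpa using h2
    · intro h
      exact ⟨fun i hi => h i (by omega), by simp [h (j + 1) le_rfl]⟩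

theorem pat_formula {M w k : ℕ} (hw : 0 < w) (a : ℕ → Bool) (j : ℕ) :
    Formula w ((j + 1) * 4 ^ k) (pat M (w * 2 ^ k) a j) := by
  have hB : 0 < w * 2 ^ k := by positivity
  have hlit : ∀ i, Formula w (4 ^ k)
      (fun y : Fin (2 * M + 3) → Bool => !(par (blk M (w * 2 ^ k) i) y ^^ a i)) := by
    intro i
    have h1 : Formula w (4 ^ k) (par (blk M (w * 2 ^ k) i)) := formula_par k _ (blk_card hB i)
    cases a i with
    | true =>
      have e : (fun y : Fin (2 * M + 3) → Bool => !(par (blk M (w * 2 ^ k) i) y ^^ true))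
          = fun y => par (blk M (w * 2 ^ k) i) y := by
        funext y; simp
      rw [e]; exact h1
    | false =>
      have e : (fun y : Fin (2 * M + 3) → Bool => !(par (blk M (w * 2 ^ k) i) y ^^ false))
          = fun y => !par (blk M (w * 2 ^ k) i) y := by
        funext y; simp
      rw [e]; exact h1.neg
  induction j with
  | zero => rw [zero_add, one_mul]; exact hlit 0
  | succ j ih =>
    have e : (j + 1 + 1) * 4 ^ k = (j + 1) * 4 ^ k + 4 ^ k := by ring
    rw [e]
    exact ih.and (hlit (j + 1))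

theorem par_blk_update {M B : ℕ} (i : ℕ) (v : Fin (2 * M + 3)) (hv : uv M ≤ v)
    (x : Fin (2 * M + 3) → Bool) (c : Bool) :
    par (blk M B i) (Function.update x v c) = par (blk M B i) x := by
  unfold par
  congr 2
  refine Finset.filter_congr fun l hl => ?_
  rw [Function.update_of_ne]
  rintro rfl
  have h1 := (Finset.mem_filter.1 (Finset.mem_filter.1 hl).1).2
  have h2 : M + 1 ≤ l.1 := hv
  omega

theorem pat_update {M B : ℕ} (a : ℕ → Bool) (j : ℕ) (v : Fin (2 * M + 3)) (hv : uv M ≤ v)
    (x : Fin (2 * M + 3) → Bool) (c : Bool) :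
    pat M B a j (Function.update x v c) = pat M B a j x := by
  induction j with
  | zero => unfold pat; rw [par_blk_update 0 v hv]
  | succ j ih => unfold pat; rw [par_blk_update _ v hv, ih]

theorem multi {M w k j : ℕ} (hw : 0 < w) (hMB : M + 1 ≤ (j + 1) * (w * 2 ^ k)) :
    ∃ R : Refutation (qparity M) (2 * 2 ^ (j + 1) + 1), R.ReducesTo w ((j + 1) * 4 ^ k) := by
  classical
  set B := w * 2 ^ k with hB
  set n := 2 ^ (j + 1) with hn
  have hn0 : 0 < n := by positivity
  obtain ⟨e⟩ : Nonempty ((Fin (j + 1) → Bool) ≃ Fin n) :=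
    ⟨Fintype.equivFinOfCardEq (by simp [hn])⟩
  let β : ℕ → ℕ → Bool := fun a => if h : a < n then ex (e.symm ⟨a, h⟩) else fun _ => false
  have hβ : ∀ y : Fin (2 * M + 3) → Bool, ∃ a < n, pat M B (β a) j y = true := by
    intro y
    refine ⟨(e fun i => par (blk M B i) y).1, (e _).2, ?_⟩
    rw [pat_iff]
    intro i hi
    have h1 : β (e fun i => par (blk M B i) y).1 = ex fun i : Fin (j + 1) => par (blk M B i) y := by
      change (if h : _ < n then ex (e.symm ⟨_, h⟩) else _) = _
      rw [dif_pos (e _).2]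
      simp
    rw [h1]
    unfold ex
    rw [dif_pos (by omega)]
  let ln : ℕ → (Fin (2 * M + 3) → Bool) → Bool := fun l y =>
    if l < n then !(pat M B (β l) j y && (!(y (uv M) ^^ pz (β l) j)))
    else if l < 2 * n then !(pat M B (β (l - n)) j y) else false
  refine ⟨⟨fun l => ln l.1, fun l => if h : l.1 < n then none else if h2 : l.1 < 2 * n then
    some (⟨l.1 - n, by omega⟩, uv M, pz (β (l.1 - n)) j) else none, ?_, ?_, ?_⟩, ?_⟩
  · intro l hl x hx hprev
    by_cases h1 : l.1 < n
    · change (if l.1 < n then _ else _) = true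
      rw [if_pos h1]
      by_cases hp : pat M B (β l.1) j x = true
      · have h2 := matrix_ne hx
        rw [← par_xs, par_blk hMB] at h2
        have h3 : pz (fun i => par (blk M B i) x) j = pz (β l.1) j :=
          pz_congr fun i hi => (pat_iff _ _ _ _ _).1 hp i hi
        rw [h3] at h2
        rw [hp]
        revert h2
        cases x (uv M) <;> cases pz (β l.1) j <;> simp
      · simp only [Bool.not_eq_true] at hp
        rw [hp]; rfl
    · by_cases h2 : l.1 < 2 * n
      · rw [dif_neg h1, dif_pos h2] at hl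
        exact absurd hl (by simp)
      · exfalso
        obtain ⟨a, ha, hpa⟩ := hβ x
        have h3 := hprev ⟨a + n, by omega⟩ (by rw [Fin.lt_def]; simp only; omega)
        change (if a + n < n then _ else if a + n < 2 * n then !(pat M B (β (a + n - n)) j x)
          else false) = true at h3
        rw [if_neg (by omega), if_pos (by omega), Nat.add_sub_cancel, hpa] at h3
        exact absurd h3 (by simp)
  · intro l i u b hl
    by_cases h1 : l.1 < n
    · rw [dif_pos h1] at hl
      exact absurd hl (by simp)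
    · by_cases h2 : l.1 < 2 * n
      · rw [dif_neg h1, dif_pos h2] at hl
        simp only [Option.some.injEq, Prod.mk.injEq] at hl
        obtain ⟨rfl, rfl, rfl⟩ := hl
        have h3 : l.1 - n < n := by omega
        refine ⟨by rw [Fin.lt_def]; simp only; omega, by simp [qparity], fun v hv x c => ?_,
          fun x => ?_⟩
        · change ln (l.1 - n) _ = ln (l.1 - n) _
          simp only [ln]
          rw [if_pos h3, if_pos h3, pat_update _ _ _ hv.le, Function.update_of_ne hv.ne]
        · change ln l.1 _ = ln (l.1 - n) _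
          simp only [ln]
          rw [if_pos h3, if_neg h1, if_pos h2, pat_update _ _ _ le_rfl, Function.update_self]
          simp
      · rw [dif_neg h1, dif_neg h2] at hl
        exact absurd hl (by simp)
  · refine ⟨⟨2 * n, by omega⟩, fun x => ?_⟩
    change ln (2 * n) x = false
    simp only [ln]
    rw [if_neg (by omega), if_neg (by omega)]
  · intro l hl
    refine ⟨_, le_rfl, ?_⟩
    by_cases h1 : l.1 < n
    · exfalso
      change ((if h : l.1 < n then none else _) : Option _).isSome = true at hl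
      rw [dif_pos h1] at hl
      exact absurd hl (by simp)
    · by_cases h2 : l.1 < 2 * n
      · have e1 : ln l.1 = fun y => !(pat M B (β (l.1 - n)) j y) := by
          funext y
          simp only [ln]
          rw [if_neg h1, if_pos h2]
        change Formula w _ (ln l.1)
        rw [e1]
        exact (pat_formula hw _ j).neg
      · exfalso
        change ((if h : l.1 < n then none else if h2 : l.1 < 2 * n then _ else none) :
          Option _).isSome = true at hl
        rw [dif_neg h1, dif_neg h2] at hl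
        exact absurd hl (by simp)

theorem Refutation.ReducesTo.mono {n L : ℕ} {Q : QBF n} {R : Refutation Q L} {w s s' : ℕ}
    (h : R.ReducesTo w s) (hs : s ≤ s') : R.ReducesTo w s' := by
  intro j hj
  obtain ⟨a, ha, hF⟩ := h j hj
  exact ⟨a, ha.trans hs, hF⟩

theorem multi_real {M w s : ℕ} (hw : 0 < w) (hs : 2 * (M + 1) ≤ w * s) :
    ∃ (L : ℕ) (R : Refutation (qparity M) L), R.ReducesTo w s ∧
      (L : ℝ) ≤ 17 * (2 : ℝ) ^ (8 * ((M : ℝ) + 1) ^ 2 / ((w : ℝ) ^ 2 * s)) := by
  have hs0 : 0 < s := by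
    rcases Nat.eq_zero_or_pos s with h | h
    · rw [h] at hs; omega
    · exact h
  have hexp1 : (1 : ℝ) ≤ (2 : ℝ) ^ (8 * ((M : ℝ) + 1) ^ 2 / ((w : ℝ) ^ 2 * s)) :=
    Real.one_le_rpow (by norm_num) (by positivity)
  by_cases hwM : M + 1 ≤ w
  · obtain ⟨R, hR⟩ := multi (M := M) (w := w) (k := 0) (j := 0) hw (by simpa using hwM)
    refine ⟨_, R, hR.mono (by simp only [zero_add, one_mul, pow_zero]; omega), ?_⟩
    norm_num
    linarith
  · have hwM' : w < M + 1 := by omega
    set A := min ((w * s) / (2 * (M + 1))) ((M + 1) / w) with hA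
    have hA1 : 1 ≤ (w * s) / (2 * (M + 1)) := (Nat.one_le_div_iff (by omega)).2 hs
    have hA2 : 1 ≤ (M + 1) / w := (Nat.one_le_div_iff hw).2 hwM'.le
    have hA0 : A ≠ 0 := by
      have : 1 ≤ A := le_min hA1 hA2
      omega
    set k := Nat.log 2 A with hk
    have hk1 : 2 ^ k ≤ A := Nat.pow_log_le_self 2 hA0
    have hk2 : A < 2 ^ (k + 1) := Nat.lt_pow_succ_log_self (by norm_num) A
    have hkN : w * 2 ^ k ≤ M + 1 := by
      calc w * 2 ^ k ≤ w * ((M + 1) / w) := Nat.mul_le_mul_left w (hk1.trans (min_le_right _ _))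
        _ ≤ M + 1 := Nat.mul_div_le _ _
    have hkS : 2 * (M + 1) * 2 ^ k ≤ w * s := by
      calc 2 * (M + 1) * 2 ^ k ≤ 2 * (M + 1) * ((w * s) / (2 * (M + 1))) :=
            Nat.mul_le_mul_left _ (hk1.trans (min_le_left _ _))
        _ ≤ w * s := Nat.mul_div_le _ _
    have hB0 : 0 < w * 2 ^ k := by positivity
    set j := M / (w * 2 ^ k) with hj
    have hj1 : M + 1 ≤ (j + 1) * (w * 2 ^ k) := by
      have h1 := Nat.div_add_mod M (w * 2 ^ k)
      have h2 := Nat.mod_lt M hB0
      rw [← hj] at h1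
      calc M + 1 ≤ w * 2 ^ k * j + w * 2 ^ k := by omega
        _ = _ := by ring
    have hj2 : (j + 1) * (w * 2 ^ k) ≤ 2 * (M + 1) := by
      have h1 : j * (w * 2 ^ k) ≤ M := Nat.div_mul_le_self M (w * 2 ^ k)
      calc (j + 1) * (w * 2 ^ k) = j * (w * 2 ^ k) + w * 2 ^ k := by ring
        _ ≤ _ := by omega
    have hsize : (j + 1) * 4 ^ k ≤ s := by
      have h4 : w * ((j + 1) * 4 ^ k) ≤ w * s := by
        calc w * ((j + 1) * 4 ^ k) = ((j + 1) * (w * 2 ^ k)) * 2 ^ k := by
              rw [show (4 : ℕ) = 2 * 2 from rfl, mul_pow]; ring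
          _ ≤ 2 * (M + 1) * 2 ^ k := Nat.mul_le_mul_right _ hj2
          _ ≤ w * s := hkS
      exact Nat.le_of_mul_le_mul_left h4 hw
    obtain ⟨R, hR⟩ := multi (M := M) (w := w) (k := k) (j := j) hw hj1
    refine ⟨_, R, hR.mono hsize, ?_⟩
    have hwR : (0 : ℝ) < w := by exact_mod_cast hw
    have hsR : (0 : ℝ) < s := by exact_mod_cast hs0
    have hM0 : (0 : ℝ) < (M : ℝ) + 1 := by positivity
    have h2k : (0 : ℝ) < 2 ^ k := by positivity
    have hj2R : ((j : ℝ) + 1) * (w * 2 ^ k) ≤ 2 * ((M : ℝ) + 1) := by exact_mod_cast hj2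
    have hpow : (2 : ℝ) ^ (j + 1) ≤ 8 * (2 : ℝ) ^ (8 * ((M : ℝ) + 1) ^ 2 / ((w : ℝ) ^ 2 * s)) := by
      rcases min_choice ((w * s) / (2 * (M + 1))) ((M + 1) / w) with hc | hc
      · -- the first term is the minimum
        have h5 : w * s < 2 * (M + 1) * 2 ^ (k + 1) := by
          rw [hA, hc] at hk2
          exact (Nat.div_lt_iff_lt_mul (by omega)).1 hk2 |>.trans_eq (by ring)
        have h5R : (w : ℝ) * s < 2 * ((M : ℝ) + 1) * 2 ^ (k + 1) := by exact_mod_cast h5
        have h6 : (((j + 1 : ℕ) : ℝ)) ≤ 8 * ((M : ℝ) + 1) ^ 2 / ((w : ℝ) ^ 2 * s) := by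
          rw [le_div_iff₀ (by positivity)]
          push_cast
          have h7 : (((j : ℝ) + 1) * ((w : ℝ) ^ 2 * s)) * 2 ^ k ≤ (8 * ((M : ℝ) + 1) ^ 2) * 2 ^ k := by
            calc (((j : ℝ) + 1) * ((w : ℝ) ^ 2 * s)) * 2 ^ k
                = (((j : ℝ) + 1) * (w * 2 ^ k)) * (w * s) := by ring
              _ ≤ (2 * ((M : ℝ) + 1)) * (2 * ((M : ℝ) + 1) * 2 ^ (k + 1)) := by
                  gcongr
              _ = (8 * ((M : ℝ) + 1) ^ 2) * 2 ^ k := by ring
          exact le_of_mul_le_mul_right h7 h2k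
        calc (2 : ℝ) ^ (j + 1) = (2 : ℝ) ^ (((j + 1 : ℕ) : ℝ)) := (Real.rpow_natCast _ _).symm
          _ ≤ (2 : ℝ) ^ (8 * ((M : ℝ) + 1) ^ 2 / ((w : ℝ) ^ 2 * s)) :=
              Real.rpow_le_rpow_of_exponent_le (by norm_num) h6
          _ ≤ _ := by linarith
      · have h5 : M + 1 < w * 2 ^ (k + 1) := by
          rw [hA, hc] at hk2
          exact (Nat.div_lt_iff_lt_mul hw).1 hk2 |>.trans_eq (by ring)
        have h6 : j + 1 < 4 := by
          have h7 : (j + 1) * (w * 2 ^ k) < 4 * (w * 2 ^ k) := by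
            calc (j + 1) * (w * 2 ^ k) ≤ 2 * (M + 1) := hj2
              _ < 2 * (w * 2 ^ (k + 1)) := by omega
              _ = _ := by ring
          exact Nat.lt_of_mul_lt_mul_right h7
        calc (2 : ℝ) ^ (j + 1) ≤ 2 ^ 3 := pow_le_pow_right₀ (by norm_num) (by omega)
          _ = 8 * 1 := by norm_num
          _ ≤ _ := by linarith
    push_cast
    linarith

end H599.QB
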