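import Pool.Agent.H599R2.QB.Bern
import Pool.Agent.H599R2.QB.Count

/-!
# Quantified Boolean formulas, semantic refutations with universal reduction, quantified parity
-/

namespace H599.QB

open Finset

/-- A quantified Boolean formula in prenex form whose matrix is a CNF.  The variables are
`0, …, n-1`, quantified in this order; `isUniv v` says that `v` is quantified universally (and
existentially otherwise).  A clause is a finite set of literals `(v, b)`; the literal `(v, b)` is
satisfied by the assignment `x` when `x v = b`. -/
structure QBF (n : ℕ) where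
  isUniv : Fin n → Bool
  clauses : Finset (Finset (Fin n × Bool))

/-- The assignment `x` satisfies all the clauses. -/
def QBF.Matrix {n : ℕ} (Q : QBF n) (x : Fin n → Bool) : Prop :=
  ∀ c ∈ Q.clauses, ∃ l ∈ c, x l.1 = l.2

/-- The formula is false: the universal player has a winning strategy `σ`, that is a choice of
every universal variable from the values of the variables before it, which always falsifies the
matrix. -/
def QBF.IsFalse {n : ℕ} (Q : QBF n) : Prop :=
  ∃ σ : Fin n → (Fin n → Bool) → Bool,
    (∀ v x y, (∀ i < v, x i = y i) → σ v x = σ v y) ∧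
    ∀ x, (∀ v, Q.isUniv v = true → x v = σ v x) → ¬ Q.Matrix x

/-- A semantic refutation with `L` lines, every line being an arbitrary Boolean function of the
`n` variables.  The line `j` is obtained either by semantic inference (`just j = none`): it is
implied by the matrix together with all the earlier lines; or by universal reduction
(`just j = some (i, u, b)`): `i` is an earlier line which depends on no variable to the right of
the universal variable `u`, and the line `j` is the line `i` with `u` replaced by the constant
`b`.  One of the lines is the constant `false`. -/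
structure Refutation {n : ℕ} (Q : QBF n) (L : ℕ) where
  line : Fin L → (Fin n → Bool) → Bool
  just : Fin L → Option (Fin L × Fin n × Bool)
  infer : ∀ j, just j = none → ∀ x, Q.Matrix x → (∀ i < j, line i x = true) → line j x = true
  red : ∀ j i u b, just j = some (i, u, b) → i < j ∧ Q.isUniv u = true ∧
    (∀ v, u < v → ∀ x c, line i (Function.update x v c) = line i x) ∧
    ∀ x, line j x = line i (Function.update x u b)
  final : ∃ j, ∀ x, line j x = false

/-- The number of lines obtained by universal reduction. -/
def Refutation.reductions {n L : ℕ} {Q : QBF n} (R : Refutation Q L) : ℕ :=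
  (Finset.univ.filter fun j => (R.just j).isSome = true).card

/-- The Boolean function `h` agrees on `{0,1}^n` with a real polynomial of total degree at most
`w`.  (For instance, `h` depends on at most `w` variables, or `h` is computed by a decision tree of
depth at most `w`.) -/
def HasDegree {n : ℕ} (w : ℕ) (h : (Fin n → Bool) → Bool) : Prop :=
  ∃ p : MvPolynomial (Fin n) ℝ, p.totalDegree ≤ w ∧
    ∀ x : Fin n → Bool, MvPolynomial.eval (fun i => if x i then (1 : ℝ) else 0) p
      = if h x then 1 else 0

/-- `Formula w s f`: the Boolean function `f` is computed by a formula with negations, binary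
conjunctions and disjunctions and exactly `s` leaves, each leaf being an arbitrary Boolean function
of real degree at most `w`. -/
inductive Formula {n : ℕ} (w : ℕ) : ℕ → ((Fin n → Bool) → Bool) → Prop
  | leaf (h : (Fin n → Bool) → Bool) (hh : HasDegree w h) : Formula w 1 h
  | neg {s : ℕ} {f : (Fin n → Bool) → Bool} : Formula w s f → Formula w s (fun x => !f x)
  | and {s t : ℕ} {f g : (Fin n → Bool) → Bool} : Formula w s f → Formula w t g →
      Formula w (s + t) (fun x => f x && g x)
  | or {s t : ℕ} {f g : (Fin n → Bool) → Bool} : Formula w s f → Formula w t g →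
      Formula w (s + t) (fun x => f x || g x)

/-- Every line obtained by universal reduction is computed by a formula with at most `s` leaves
of degree at most `w` each.  (The other lines are arbitrary.) -/
def Refutation.ReducesTo {n L : ℕ} {Q : QBF n} (R : Refutation Q L) (w s : ℕ) : Prop :=
  ∀ j, (R.just j).isSome = true → ∃ s' ≤ s, Formula w s' (R.line j)

/-- The variable `x_i`, `i ≤ M`. -/
def xv (M : ℕ) (i : ℕ) (h : i ≤ M) : Fin (2 * M + 3) := ⟨i, by omega⟩

/-- The universal variable. -/
def uv (M : ℕ) : Fin (2 * M + 3) := ⟨M + 1, by omega⟩

/-- The variable `t_i`, `i ≤ M`. -/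
def tv (M : ℕ) (i : ℕ) (h : i ≤ M) : Fin (2 * M + 3) := ⟨M + 2 + i, by omega⟩

/-- The clauses for `a = b`. -/
def eqCl {n : ℕ} (a b : Fin n) : Finset (Finset (Fin n × Bool)) :=
  {{(a, true), (b, false)}, {(a, false), (b, true)}}

/-- The clauses for `a ≠ b`. -/
def neCl {n : ℕ} (a b : Fin n) : Finset (Finset (Fin n × Bool)) :=
  {{(a, true), (b, true)}, {(a, false), (b, false)}}

/-- The clauses for `a = b ⊕ c`. -/
def xorCl {n : ℕ} (a b c : Fin n) : Finset (Finset (Fin n × Bool)) :=
  {{(a, false), (b, true), (c, true)}, {(a, true), (b, false), (c, true)},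
    {(a, true), (b, true), (c, false)}, {(a, false), (b, false), (c, false)}}

/-- Quantified parity with `M + 1` variables:
`∃ x_0 … x_M ∀ u ∃ t_0 … t_M, (t_0 = x_0) ∧ (t_{i+1} = t_i ⊕ x_{i+1} for i < M) ∧ (u ≠ t_M)`. -/
def qparity (M : ℕ) : QBF (2 * M + 3) where
  isUniv v := decide (v = uv M)
  clauses := eqCl (tv M 0 (Nat.zero_le M)) (xv M 0 (Nat.zero_le M)) ∪
    neCl (uv M) (tv M M le_rfl) ∪
    (Finset.univ : Finset (Fin M)).biUnion fun i =>
      xorCl (tv M (i + 1) i.2) (tv M i i.2.le) (xv M (i + 1) i.2)

end H599.QB
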