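import Pool.Agent.H599R2.QB.Qbf

/-!
# Quantified parity: lower and upper bound
-/

namespace H599.QB

open Finset

/-! ### Prefix parities -/

theorem sg_inj {a b : Bool} (h : sg a = sg b) : a = b := by
  cases a <;> cases b <;> simp [sg] at h ⊢ <;> norm_num at h

/-- prefix parity of a sequence -/
def pz (g : ℕ → Bool) : ℕ → Bool
  | 0 => g 0
  | i + 1 => pz g i ^^ g (i + 1)

theorem sg_pz (g : ℕ → Bool) (i : ℕ) : sg (pz g i) = ∏ j ∈ Finset.range (i + 1), sg (g j) := by
  induction i with
  | zero => simp [pz]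
  | succ i ih => rw [Finset.prod_range_succ, ← ih, ← sg_xor]; rfl

theorem pz_congr {g g' : ℕ → Bool} {i : ℕ} (h : ∀ j ≤ i, g j = g' j) : pz g i = pz g' i := by
  induction i with
  | zero => exact h 0 le_rfl
  | succ i ih =>
    change (pz g i ^^ g (i + 1)) = (pz g' i ^^ g' (i + 1))
    rw [ih fun j hj => h j (by omega), h (i + 1) le_rfl]

/-- extension by `false` -/
def ex {n : ℕ} (y : Fin n → Bool) (i : ℕ) : Bool := if h : i < n then y ⟨i, h⟩ else false

/-! ### The matrix -/

theorem eqCl_iff {n : ℕ} (a b : Fin n) (x : Fin n → Bool) :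
    (∀ c ∈ eqCl a b, ∃ l ∈ c, x l.1 = l.2) ↔ x a = x b := by
  unfold eqCl
  simp only [Finset.mem_insert, Finset.mem_singleton, forall_eq_or_imp, forall_eq,
    exists_eq_or_imp, exists_eq_left]
  cases x a <;> cases x b <;> simp

theorem neCl_iff {n : ℕ} (a b : Fin n) (x : Fin n → Bool) :
    (∀ c ∈ neCl a b, ∃ l ∈ c, x l.1 = l.2) ↔ x a ≠ x b := by
  unfold neCl
  simp only [Finset.mem_insert, Finset.mem_singleton, forall_eq_or_imp, forall_eq,
    exists_eq_or_imp, exists_eq_left]
  cases x a <;> cases x b <;> simp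

theorem xorCl_iff {n : ℕ} (a b d : Fin n) (x : Fin n → Bool) :
    (∀ c ∈ xorCl a b d, ∃ l ∈ c, x l.1 = l.2) ↔ x a = (x b ^^ x d) := by
  unfold xorCl
  simp only [Finset.mem_insert, Finset.mem_singleton, forall_eq_or_imp, forall_eq,
    exists_eq_or_imp, exists_eq_left]
  cases x a <;> cases x b <;> cases x d <;> simp

theorem matrix_iff (M : ℕ) (y : Fin (2 * M + 3) → Bool) : (qparity M).Matrix y ↔
    y (tv M 0 (Nat.zero_le M)) = y (xv M 0 (Nat.zero_le M)) ∧ y (uv M) ≠ y (tv M M le_rfl) ∧
    ∀ i : Fin M, y (tv M (i + 1) i.2) = (y (tv M i i.2.le) ^^ y (xv M (i + 1) i.2)) := by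
  unfold QBF.Matrix qparity
  rw [← eqCl_iff, ← neCl_iff]
  simp only [← xorCl_iff]
  simp only [Finset.mem_union, Finset.mem_biUnion, Finset.mem_univ, true_and]
  constructor
  · intro h
    exact ⟨fun c hc => h c (Or.inl (Or.inl hc)), fun c hc => h c (Or.inl (Or.inr hc)),
      fun i c hc => h c (Or.inr ⟨i, hc⟩)⟩
  · rintro ⟨h1, h2, h3⟩ c ((hc | hc) | ⟨i, hc⟩)
    · exact h1 c hc
    · exact h2 c hc
    · exact h3 i c hc

/-- on a satisfying assignment of the matrix the variables `t_i` are the prefix parities -/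
theorem tv_eq {M : ℕ} {y : Fin (2 * M + 3) → Bool} (h : (qparity M).Matrix y) (i : ℕ) (hi : i ≤ M) :
    y (tv M i hi) = pz (ex y) i := by
  rw [matrix_iff] at h
  have hx : ∀ i (hi : i ≤ M), y (xv M i hi) = ex y i := by
    intro i hi
    unfold ex
    rw [dif_pos (by omega)]; rfl
  induction i with
  | zero => rw [h.1, hx]; rfl
  | succ i ih =>
    have := h.2.2 ⟨i, hi⟩
    change y (tv M (i + 1) hi) = (pz (ex y) i ^^ ex y (i + 1))
    rw [← ih (by omega), ← hx (i + 1) hi]
    exact this

theorem matrix_ne {M : ℕ} {y : Fin (2 * M + 3) → Bool} (h : (qparity M).Matrix y) :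
    y (uv M) ≠ pz (ex y) M := by
  rw [← tv_eq h M le_rfl]
  exact ((matrix_iff M y).1 h).2.1

/-- the assignment with the bits `z`, the value `b` of `u` and the prefix parities -/
def ext (M : ℕ) (z : Fin (M + 1) → Bool) (b : Bool) : Fin (2 * M + 3) → Bool := fun v =>
  if v.1 < M + 1 then ex z v.1 else if v.1 = M + 1 then b else pz (ex z) (v.1 - (M + 2))

theorem ext_x (M : ℕ) (z : Fin (M + 1) → Bool) (b : Bool) (i : ℕ) (hi : i ≤ M) :
    ext M z b (xv M i hi) = ex z i := by
  unfold ext xv
  rw [if_pos (by simp only; omega)]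

theorem ext_u (M : ℕ) (z : Fin (M + 1) → Bool) (b : Bool) : ext M z b (uv M) = b := by
  unfold ext uv
  simp

theorem ext_t (M : ℕ) (z : Fin (M + 1) → Bool) (b : Bool) (i : ℕ) (hi : i ≤ M) :
    ext M z b (tv M i hi) = pz (ex z) i := by
  unfold ext tv
  simp only
  rw [if_neg (by omega), if_neg (by omega)]
  congr 1; omega

theorem ext_matrix {M : ℕ} {z : Fin (M + 1) → Bool} {b : Bool} (h : b ≠ pz (ex z) M) :
    (qparity M).Matrix (ext M z b) := by
  rw [matrix_iff]
  refine ⟨?_, ?_, fun i => ?_⟩
  · rw [ext_t, ext_x]; rfl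
  · rw [ext_u, ext_t]; exact h
  · rw [ext_t, ext_t, ext_x]; rfl

/-- the formula is false -/
theorem qparity_false (M : ℕ) : (qparity M).IsFalse := by
  refine ⟨fun v x => if M < v.1 then pz (ex x) M else false, fun v x y h => ?_, fun x hx hm => ?_⟩
  · beta_reduce
    split_ifs with hv
    · apply pz_congr
      intro j hj
      unfold ex
      by_cases h2 : j < 2 * M + 3
      · rw [dif_pos h2, dif_pos h2]
        exact h _ (by rw [Fin.lt_def]; simp only; omega)
      · rw [dif_neg h2, dif_neg h2]
    · rfl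
  · have h1 := hx (uv M) (by simp [qparity])
    beta_reduce at h1
    rw [if_pos (by unfold uv; simp)] at h1
    exact matrix_ne hm h1

theorem clauses_card (M : ℕ) : (qparity M).clauses.card ≤ 4 * (M + 1) := by
  have h1 : ∀ a b : Fin (2 * M + 3), (eqCl a b).card ≤ 2 := fun a b => Finset.card_le_two
  have h2 : ∀ a b : Fin (2 * M + 3), (neCl a b).card ≤ 2 := fun a b => Finset.card_le_two
  have h3 : ∀ a b c : Fin (2 * M + 3), (xorCl a b c).card ≤ 4 := fun a b c => Finset.card_le_four
  unfold qparity
  refine (Finset.card_union_le _ _).trans ?_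
  have h4 := Finset.card_union_le (eqCl (tv M 0 (Nat.zero_le M)) (xv M 0 (Nat.zero_le M)))
    (neCl (uv M) (tv M M le_rfl))
  have h5 := Finset.card_biUnion_le (s := (Finset.univ : Finset (Fin M))) (t := fun i =>
    xorCl (tv M (i + 1) i.2) (tv M i i.2.le) (xv M (i + 1) i.2))
  have h6 : ∑ i : Fin M, (xorCl (tv M (i + 1) i.2) (tv M i i.2.le) (xv M (i + 1) i.2)).card
      ≤ ∑ _i : Fin M, 4 := Finset.sum_le_sum fun i _ => h3 _ _ _
  rw [Finset.sum_const, Finset.card_univ, Fintype.card_fin, smul_eq_mul] at h6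
  have h7 := h1 (tv M 0 (Nat.zero_le M)) (xv M 0 (Nat.zero_le M))
  have h8 := h2 (uv M) (tv M M le_rfl)
  omega

theorem clauses_width (M : ℕ) : ∀ c ∈ (qparity M).clauses, c.card ≤ 3 := by
  intro c hc
  unfold qparity at hc
  simp only [Finset.mem_union, Finset.mem_biUnion, Finset.mem_univ, true_and] at hc
  rcases hc with (hc | hc) | ⟨i, hc⟩
  · unfold eqCl at hc
    simp only [Finset.mem_insert, Finset.mem_singleton] at hc
    rcases hc with rfl | rfl <;> exact Finset.card_le_two.trans (by norm_num)
  · unfold neCl at hc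
    simp only [Finset.mem_insert, Finset.mem_singleton] at hc
    rcases hc with rfl | rfl <;> exact Finset.card_le_two.trans (by norm_num)
  · unfold xorCl at hc
    simp only [Finset.mem_insert, Finset.mem_singleton] at hc
    rcases hc with rfl | rfl | rfl | rfl <;> exact Finset.card_le_three

/-! ### Strategy extraction -/

/-- the assignment with the bits `z` and `false` elsewhere -/
def ext0 (M : ℕ) (z : Fin (M + 1) → Bool) : Fin (2 * M + 3) → Bool := fun v => ex z v.1

/-- a function that depends on no variable outside `S` takes equal values on assignments that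
agree on `S` -/
theorem indep_congr {n : ℕ} {f : (Fin n → Bool) → Bool} (P : Fin n → Prop)
    (h : ∀ v, P v → ∀ x c, f (Function.update x v c) = f x) {x y : Fin n → Bool}
    (hxy : ∀ v, ¬ P v → x v = y v) : f x = f y := by
  classical
  -- change the coordinates one at a time
  have key : ∀ S : Finset (Fin n), f (fun v => if v ∈ S then y v else x v) = f x := by
    intro S
    induction S using Finset.induction_on with
    | empty => simp
    | insert a S ha ih =>
      by_cases hP : P a
      · rw [← ih, ← h a hP (fun v => if v ∈ S then y v else x v) (y a)]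
        congr 1
        funext v
        by_cases hv : v = a
        · subst hv; simp
        · simp [hv]
      · rw [← ih]
        congr 1
        funext v
        by_cases hv : v = a
        · subst hv; simp [ha, hxy v hP]
        · simp [hv]
  have h1 := key Finset.univ
  simp only [Finset.mem_univ, if_true] at h1
  exact h1.symm

/-- a reduced line depends on the variables `x_i` only -/
theorem red_congr {M L : ℕ} (R : Refutation (qparity M) L) {j : Fin L}
    (hj : (R.just j).isSome = true) {x y : Fin (2 * M + 3) → Bool}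
    (hxy : ∀ v : Fin (2 * M + 3), v.1 < M + 1 → x v = y v) : R.line j x = R.line j y := by
  obtain ⟨⟨i, u, b⟩, hj'⟩ := Option.isSome_iff_exists.1 hj
  obtain ⟨h1, h2, h3, h4⟩ := R.red j i u b hj'
  have hu : u = uv M := by simpa [qparity] using h2
  subst hu
  rw [h4 x, h4 y]
  refine indep_congr (fun v => uv M < v) h3 fun v hv => ?_
  by_cases hvu : v = uv M
  · subst hvu; simp
  · rw [Function.update_of_ne hvu, Function.update_of_ne hvu]
    refine hxy v ?_
    have h5 : ¬ (M + 1 < v.1) := by
      rw [Fin.lt_def] at hv; exact hv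
    have h6 : v.1 ≠ M + 1 := fun h => hvu (Fin.ext h)
    omega

theorem red_ext {M L : ℕ} (R : Refutation (qparity M) L) {j : Fin L}
    (hj : (R.just j).isSome = true) (z : Fin (M + 1) → Bool) (b : Bool) :
    R.line j (ext M z b) = R.line j (ext0 M z) := by
  refine red_congr R hj fun v hv => ?_
  unfold ext ext0
  rw [if_pos hv]

theorem lines_true {M L : ℕ} (R : Refutation (qparity M) L) {z : Fin (M + 1) → Bool} {b : Bool}
    (hb : b ≠ pz (ex z) M) (j : Fin L)
    (hm : ∀ j' ≤ j, (R.just j').isSome = true → R.line j' (ext0 M z) = true) :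
    R.line j (ext M z b) = true := by
  induction j using WellFoundedLT.induction with
  | ind j ih =>
    by_cases hj : (R.just j).isSome = true
    · rw [red_ext R hj]; exact hm j le_rfl hj
    · have hn : R.just j = none := by simpa using hj
      exact R.infer j hn _ (ext_matrix hb) fun i hi => ih i hi fun j' hj' => hm j' (hj'.trans hi.le)

/-- strategy extraction -/
theorem extraction {M L : ℕ} (R : Refutation (qparity M) L) (z : Fin (M + 1) → Bool) :
    ∃ j i u b, R.just j = some (i, u, b) ∧ R.line j (ext0 M z) = false ∧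
      (∀ j' < j, (R.just j').isSome = true → R.line j' (ext0 M z) = true) ∧
      b = pz (ex z) M := by
  by_cases hex : ∃ j, (R.just j).isSome = true ∧ R.line j (ext0 M z) = false
  · obtain ⟨j, ⟨hj1, hj2⟩, hmin⟩ := WellFounded.has_min
      (wellFounded_lt : WellFounded ((· < ·) : Fin L → Fin L → Prop))
      {j | (R.just j).isSome = true ∧ R.line j (ext0 M z) = false} hex
    have hmin' : ∀ j' < j, (R.just j').isSome = true → R.line j' (ext0 M z) = true := by
      intro j' hj' hs
      by_contra hcon
      exact hmin j' ⟨hs, by simpa using hcon⟩ hj'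
    obtain ⟨⟨i, u, b⟩, hj'⟩ := Option.isSome_iff_exists.1 hj1
    refine ⟨j, i, u, b, hj', hj2, hmin', ?_⟩
    by_contra hb
    obtain ⟨h1, h2, _, h4⟩ := R.red j i u b hj'
    have hu : u = uv M := by simpa [qparity] using h2
    subst hu
    have h5 : R.line i (ext M z b) = true :=
      lines_true R hb i fun j' hj' hs => hmin' j' (lt_of_le_of_lt hj' h1) hs
    have h6 : Function.update (ext M z b) (uv M) b = ext M z b := by
      rw [Function.update_eq_self_iff, ext_u]
    have h7 := h4 (ext M z b)
    rw [h6, h5, red_ext R hj1, hj2] at h7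
    exact absurd h7 (by simp)
  · exfalso
    obtain ⟨j, hj⟩ := R.final
    have h1 : R.line j (ext M z (!pz (ex z) M)) = true := by
      refine lines_true R (by simp) j fun j' _ hs => ?_
      by_contra hcon
      exact hex ⟨j', hs, by simpa using hcon⟩
    rw [hj] at h1
    exact absurd h1 (by simp)

/-! ### Formulas have adversary solutions -/

theorem Formula.pos {n w s : ℕ} {f : (Fin n → Bool) → Bool} (h : Formula w s f) : 0 < s := by
  induction h with
  | leaf => exact Nat.one_pos
  | neg _ ih => exact ih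
  | and _ _ ih _ => exact Nat.add_pos_left ih _
  | or _ _ ih _ => exact Nat.add_pos_left ih _

theorem sg_eq (b : Bool) : sg b = 1 - 2 * (if b then (1 : ℝ) else 0) := by
  cases b
  · simp [sg]
  · simp [sg]; norm_num

theorem ite_mem {M : ℕ} (v : Fin (2 * M + 3)) :
    (fun z : Fin (M + 1) → Bool => if ext0 M z v then (1 : ℝ) else 0) ∈ Deg (Fin (M + 1)) 1 := by
  unfold ext0 ex
  by_cases h : v.1 < M + 1
  · have e : (fun z : Fin (M + 1) → Bool =>
        if (if h : v.1 < M + 1 then z ⟨v.1, h⟩ else false) = true then (1 : ℝ) else 0)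
        = (fun _ => (1 / 2 : ℝ)) + (-1 / 2 : ℝ) • fun z : Fin (M + 1) → Bool => sg (z ⟨v.1, h⟩) := by
      funext z
      simp only [Pi.add_apply, Pi.smul_apply, smul_eq_mul]
      rw [dif_pos h, sg_eq]; ring
    rw [e]
    exact Submodule.add_mem _ (const_mem _ _) (Submodule.smul_mem _ _ (coord_mem _))
  · have e : (fun z : Fin (M + 1) → Bool =>
        if (if h : v.1 < M + 1 then z ⟨v.1, h⟩ else false) = true then (1 : ℝ) else 0)
        = fun _ => 0 := by
      funext z
      rw [dif_neg h]; simp
    rw [e]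
    exact const_mem _ _

theorem eval_mem {M w : ℕ} {p : MvPolynomial (Fin (2 * M + 3)) ℝ} (hp : p.totalDegree ≤ w) :
    (fun z : Fin (M + 1) → Bool =>
      MvPolynomial.eval (fun i => if ext0 M z i then (1 : ℝ) else 0) p) ∈ Deg (Fin (M + 1)) w := by
  have e : (fun z : Fin (M + 1) → Bool =>
      MvPolynomial.eval (fun i => if ext0 M z i then (1 : ℝ) else 0) p)
      = fun z => ∑ d ∈ p.support, p.coeff d * ∏ i, (if ext0 M z i then (1 : ℝ) else 0) ^ d i := by
    funext z
    rw [MvPolynomial.eval_eq']
  rw [e]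
  refine sum_mem' _ _ fun d hd => Submodule.smul_mem _ (p.coeff d) ?_
  have hdeg : ∑ i, d i ≤ w := by
    have h1 := MvPolynomial.le_totalDegree hd
    refine le_trans (le_of_eq ?_) (h1.trans hp)
    rw [Finsupp.sum_fintype]
    intro i; rfl
  have key : ∀ S : Finset (Fin (2 * M + 3)),
      (fun z : Fin (M + 1) → Bool => ∏ i ∈ S, (if ext0 M z i then (1 : ℝ) else 0) ^ d i)
        ∈ Deg (Fin (M + 1)) (∑ i ∈ S, d i) := by
    intro S
    induction S using Finset.induction_on with
    | empty => simpa using const_mem (V := Fin (M + 1)) 1 0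
    | insert a S ha ih =>
      have e2 : (fun z : Fin (M + 1) → Bool => ∏ i ∈ insert a S,
          (if ext0 M z i then (1 : ℝ) else 0) ^ d i) = fun z =>
          (if ext0 M z a then (1 : ℝ) else 0) ^ d a *
            ∏ i ∈ S, (if ext0 M z i then (1 : ℝ) else 0) ^ d i := by
        funext z; rw [Finset.prod_insert ha]
      rw [e2, Finset.sum_insert ha]
      have h3 := pow_mem (ite_mem (M := M) a) (d a)
      rw [mul_one] at h3
      exact mul_mem h3 ih
  exact Deg.mono hdeg (key Finset.univ)

theorem Formula.hasAdv {M w s : ℕ} {f : (Fin (2 * M + 3) → Bool) → Bool} (h : Formula w s f) :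
    HasAdv (fun g : (Fin (M + 1) → Bool) → Bool => (fun z => sg (g z)) ∈ Deg (Fin (M + 1)) w) s
      (fun z : Fin (M + 1) → Bool => f (ext0 M z)) := by
  induction h with
  | leaf h hh =>
    obtain ⟨p, hp, hp'⟩ := hh
    refine HasAdv.leaf ?_
    have e : (fun z : Fin (M + 1) → Bool => sg (h (ext0 M z))) = (fun _ => (1 : ℝ)) + (-2 : ℝ) •
        fun z => MvPolynomial.eval (fun i => if ext0 M z i then (1 : ℝ) else 0) p := by
      funext z
      simp only [Pi.add_apply, Pi.smul_apply, smul_eq_mul]
      rw [hp' (ext0 M z), sg_eq]; ring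
    rw [e]
    exact Submodule.add_mem _ (const_mem _ _) (Submodule.smul_mem _ _ (eval_mem hp))
  | neg _ ih => exact ih.neg
  | and h1 h2 ih1 ih2 => exact ih1.and h1.pos h2.pos ih2
  | or h1 h2 ih1 ih2 => exact ih1.or h1.pos h2.pos ih2

end H599.QB
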