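import Pool.Agent.H599R2.QB.Const564
import Pool.Agent.H599R2.QB.Lower
import Pool.Agent.H564R2.QF.ApproxOf
import Pool.Agent.H564R2.QF.Decomp
import Pool.Agent.H564R2.QF.Robust

/-!
# Quantified parity: the strong lower bound
-/

namespace H599.QB

open Finset
open Pool.Agent.H564R2.QF (Fml LowDeg)

/-- the leaves of a formula -/
abbrev Lf (n w : ℕ) : Type := {h : (Fin n → Bool) → Bool // HasDegree w h}

theorem Formula.toFml {n w s : ℕ} {f : (Fin n → Bool) → Bool} (h : Formula w s f) :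
    ∃ φ : Fml (Lf n w), φ.size = s ∧ ∀ x, f x = φ.eval (fun g => g.1 x) := by
  induction h with
  | leaf h hh => exact ⟨.var ⟨h, hh⟩, rfl, fun x => rfl⟩
  | neg _ ih =>
    obtain ⟨φ, h1, h2⟩ := ih
    exact ⟨.neg φ, h1, fun x => by beta_reduce; rw [h2 x]; rfl⟩
  | and _ _ ih1 ih2 =>
    obtain ⟨φ, h1, h2⟩ := ih1
    obtain ⟨ψ, h3, h4⟩ := ih2
    exact ⟨.and φ ψ, by rw [← h1, ← h3]; rfl, fun x => by beta_reduce; rw [h2 x, h4 x]; rfl⟩
  | or _ _ ih1 ih2 =>
    obtain ⟨φ, h1, h2⟩ := ih1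
    obtain ⟨ψ, h3, h4⟩ := ih2
    exact ⟨.or φ ψ, by rw [← h1, ← h3]; rfl, fun x => by beta_reduce; rw [h2 x, h4 x]; rfl⟩

theorem leaf_mem {M w : ℕ} {h : (Fin (2 * M + 3) → Bool) → Bool} (hh : HasDegree w h) :
    (fun z : Fin (M + 1) → Bool => sg (h (ext0 M z))) ∈ Deg (Fin (M + 1)) w := by
  obtain ⟨p, hp, hp'⟩ := hh
  have e : (fun z : Fin (M + 1) → Bool => sg (h (ext0 M z))) = (fun _ => (1 : ℝ)) + (-2 : ℝ) •
      fun z => MvPolynomial.eval (fun i => if ext0 M z i then (1 : ℝ) else 0) p := by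
    funext z
    simp only [Pi.add_apply, Pi.smul_apply, smul_eq_mul]
    rw [hp' (ext0 M z), sg_eq]; ring
  rw [e]
  exact Submodule.add_mem _ (const_mem _ _) (Submodule.smul_mem _ _ (eval_mem hp))

theorem subst_mem {M w D : ℕ} {P : (Lf (2 * M + 3) w → Bool) → ℝ}
    (hP : P ∈ LowDeg (Lf (2 * M + 3) w) D) :
    (fun z : Fin (M + 1) → Bool => P (fun g => g.1 (ext0 M z))) ∈ Deg (Fin (M + 1)) (D * w) := by
  induction hP using Submodule.span_induction with
  | mem f hf =>
    obtain ⟨S, hS, rfl⟩ := hf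
    have e : (fun z : Fin (M + 1) → Bool =>
        Pool.Agent.H564R2.QF.chi S (fun g : Lf (2 * M + 3) w => g.1 (ext0 M z)))
        = fun z => ∏ g ∈ S, sg (g.1 (ext0 M z)) := rfl
    rw [e]
    exact Deg.mono (Nat.mul_le_mul_right w hS)
      (prod_mem S w (fun g z => sg (g.1 (ext0 M z))) fun g _ => leaf_mem g.2)
  | zero => exact Submodule.zero_mem _
  | add f g _ _ ihf ihg => exact Submodule.add_mem _ ihf ihg
  | smul a f _ ihf => exact Submodule.smul_mem _ a ihf

/-- Formulas of size `K T²` over leaves of degree `w` are approximated with error `4^{-K}` in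
degree `12780 K T w`. -/
theorem Formula.approx_strong {M w s K T : ℕ} {f : (Fin (2 * M + 3) → Bool) → Bool}
    (h : Formula w s f) (hK : 1 ≤ K) (hT : 1 ≤ T) (hs : s ≤ K * T ^ 2) :
    ∃ P ∈ Deg (Fin (M + 1)) (12780 * K * T * w), ∀ z : Fin (M + 1) → Bool,
      |P z - (if f (ext0 M z) = true then 1 else 0)| ≤ (1 / 4) ^ K := by
  obtain ⟨φ, h1, h2⟩ := h.toFml
  obtain ⟨P, hP, hP'⟩ := Pool.Agent.H564R2.QF.formula_approx_of
    Pool.Agent.H564R2.QF.approx_const Pool.Agent.H564R2.QF.decomp Pool.Agent.H564R2.QF.robust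
    φ K T hK hT (by rw [h1]; exact hs)
  refine ⟨_, subst_mem hP, fun z => ?_⟩
  rw [h2 (ext0 M z)]
  exact hP' _

theorem strong_nat {M w s L K T : ℕ} (hT : 1 ≤ T) (hs : s ≤ K * T ^ 2)
    (hKT : 204480 * K * T * w ≤ M + 1) (hw : 0 < w)
    (R : Refutation (qparity M) L) (hR : R.ReducesTo w s) :
    4 ^ K ≤ 16 * R.reductions := by
  classical
  unfold Refutation.reductions
  set red := (Finset.univ.filter fun j => (R.just j).isSome = true) with hred
  let emb := red.orderEmbOfFin rfl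
  have hemb : ∀ i, (R.just (emb i)).isSome = true := fun i =>
    (Finset.mem_filter.1 (red.orderEmbOfFin_mem rfl i)).2
  have hsurj : ∀ j, (R.just j).isSome = true → ∃ i, emb i = j := by
    intro j hj
    have h1 : j ∈ Set.range emb := by
      rw [Finset.range_orderEmbOfFin]
      exact Finset.mem_coe.2 (Finset.mem_filter.2 ⟨Finset.mem_univ _, hj⟩)
    exact h1
  let b : Fin red.card → Bool := fun i => ((R.just (emb i)).map fun t => t.2.2).getD false
  have hlist : ∀ z : Fin (M + 1) → Bool, ∃ i, (!(R.line (emb i) (ext0 M z))) = true ∧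
      (∀ j < i, (!(R.line (emb j) (ext0 M z))) = false) ∧ sg (b i) = chi Finset.univ z := by
    intro z
    obtain ⟨j, i, u, c, h1, h2, h3, h4⟩ := extraction R z
    obtain ⟨k, rfl⟩ := hsurj j (by rw [h1]; rfl)
    refine ⟨k, by rw [h2]; rfl, fun j hj => ?_, ?_⟩
    · rw [h3 (emb j) (emb.lt_iff_lt.2 hj) (hemb j)]; rfl
    · have h5 : b k = c := by
        change ((R.just (emb k)).map fun t => t.2.2).getD false = c
        rw [h1]; rfl
      rw [h5, h4, chi_univ_eq]
  have hr0 : 0 < red.card := by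
    obtain ⟨i, _⟩ := hlist fun _ => false
    have := i.2
    omega
  obtain _ | m := K
  · simp only [pow_zero]; omega
  · have hmain : 4 ^ m ≤ 4 * red.card := by
      refine list_lower (V := Fin (M + 1)) (fun i z => !(R.line (emb i) (ext0 M z))) b
        (d := 12780 * (m + 1) * T * w) (m := m) ?_ ?_ ?_ hlist
      · rw [Fintype.card_fin]
        calc 16 * (12780 * (m + 1) * T * w) = 204480 * (m + 1) * T * w := by ring
          _ ≤ M + 1 := hKT
      · rw [Fintype.card_fin]
        refine le_trans ?_ hKT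
        have h1 : 1 ≤ T * w := Nat.mul_pos hT hw
        calc m ≤ 204480 * (m + 1) := by omega
          _ = 204480 * (m + 1) * 1 := (mul_one _).symm
          _ ≤ 204480 * (m + 1) * (T * w) := Nat.mul_le_mul_left _ h1
          _ = _ := by ring
      · intro i
        obtain ⟨s', hs', hF⟩ := hR (emb i) (hemb i)
        obtain ⟨P, hP, hP'⟩ := hF.neg.approx_strong (M := M) (K := m + 1) (T := T)
          (Nat.succ_pos m) hT (hs'.trans hs)
        have he0 : (0 : ℝ) < (1 / 4) ^ (m + 1) := by positivity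
        have he : ((1 : ℝ) / 4) ^ (m + 1) ≤ 1 / 2 ^ (m + 1) / 2 := by
          have e1 : ((1 : ℝ) / 4) ^ (m + 1) = 1 / 2 ^ (m + 1) * (1 / 2 ^ (m + 1)) := by
            rw [show (1 / 4 : ℝ) = 1 / 2 * (1 / 2) by norm_num, mul_pow, one_div_pow]
          have e2 : (1 : ℝ) / 2 ^ (m + 1) ≤ 1 / 2 := by
            apply one_div_le_one_div_of_le (by norm_num)
            calc (2 : ℝ) = 2 ^ 1 := by norm_num
              _ ≤ 2 ^ (m + 1) := pow_le_pow_right₀ (by norm_num) (by omega)
          rw [e1, div_eq_mul_one_div (1 / 2 ^ (m + 1)) (2 : ℝ)]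
          exact mul_le_mul_of_nonneg_left e2 (by positivity)
        set e : ℝ := (1 / 4) ^ (m + 1) with hedef
        refine ⟨(1 / (1 + e)) • P, Submodule.smul_mem _ _ hP, fun z => ?_, fun z => ?_⟩
        · have h1 := abs_le.1 (hP' z)
          rw [Pi.smul_apply, smul_eq_mul, abs_mul, abs_of_pos (by positivity : 0 < 1 / (1 + e)),
            one_div, inv_mul_le_iff₀ (by positivity), mul_one, abs_le]
          beta_reduce at h1
          split_ifs at h1 <;> constructor <;> linarith [h1.1, h1.2]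
        · have h1 := abs_le.1 (hP' z)
          have hpos : 0 < 1 + e := by positivity
          have h2 : ((1 / (1 + e)) • P) z = P z / (1 + e) := by
            rw [Pi.smul_apply, smul_eq_mul]; ring
          rw [h2]
          beta_reduce at h1 ⊢
          have h3 : P z / (1 + e) - (if (!(R.line (emb i) (ext0 M z))) = true then (1 : ℝ) else 0)
              = ((P z - (if (!(R.line (emb i) (ext0 M z))) = true then (1 : ℝ) else 0))
                - e * (if (!(R.line (emb i) (ext0 M z))) = true then (1 : ℝ) else 0))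
                  / (1 + e) := by
            field_simp
            ring
          rw [h3, abs_div, abs_of_pos hpos, div_le_iff₀ hpos]
          have h4 : (1 : ℝ) / 2 ^ (m + 1) * (1 + e) ≥ 1 / 2 ^ (m + 1) := by
            have : (0 : ℝ) < 1 / 2 ^ (m + 1) := by positivity
            nlinarith
          refine le_trans ?_ h4
          rw [abs_le]
          split_ifs at h1 ⊢ <;> constructor <;> linarith [h1.1, h1.2]
    calc 4 ^ (m + 1) = 4 * 4 ^ m := by ring
      _ ≤ 4 * (4 * red.card) := Nat.mul_le_mul_left 4 hmain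
      _ = _ := by ring

theorem reductions_pos {M L : ℕ} (R : Refutation (qparity M) L) : 0 < R.reductions := by
  obtain ⟨j, i, u, c, h1, _⟩ := extraction R fun _ => false
  exact Finset.card_pos.2 ⟨j, Finset.mem_filter.2 ⟨Finset.mem_univ _, by rw [h1]; rfl⟩⟩

theorem strong {M w s L : ℕ} (hw : 0 < w) (hMs : M + 1 ≤ w * s)
    (R : Refutation (qparity M) L) (hR : R.ReducesTo w s) :
    (2 : ℝ) ^ (((M : ℝ) + 1) ^ 2 / (10 ^ 11 * (w : ℝ) ^ 2 * s)) ≤ 64 * R.reductions := by
  have hs0 : 0 < s := by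
    rcases Nat.eq_zero_or_pos s with h | h
    · rw [h] at hMs; omega
    · exact h
  have hsR : (1 : ℝ) ≤ s := by exact_mod_cast hs0
  have hwR : (0 : ℝ) < w := by exact_mod_cast hw
  have hMsR : (M : ℝ) + 1 ≤ w * s := by exact_mod_cast hMs
  have hM0 : (0 : ℝ) < (M : ℝ) + 1 := by positivity
  obtain ⟨x, hx⟩ : ∃ x : ℝ, x = ((M : ℝ) + 1) ^ 2 / (408960 ^ 2 * (w : ℝ) ^ 2 * s) := ⟨_, rfl⟩
  have hx0 : 0 ≤ x := by rw [hx]; positivity
  have hNx : ((M : ℝ) + 1) ^ 2 = x * (408960 ^ 2 * (w : ℝ) ^ 2 * s) := by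
    rw [hx]; field_simp
  obtain ⟨K, hK⟩ : ∃ K : ℕ, K = ⌊x⌋₊ := ⟨_, rfl⟩
  have hKx : (K : ℝ) ≤ x := by rw [hK]; exact Nat.floor_le hx0
  have hxK : x < K + 1 := by rw [hK]; exact Nat.lt_floor_add_one x
  -- the natural-number bound
  have hmain : 4 ^ K ≤ 16 * R.reductions := by
    rcases Nat.eq_zero_or_pos K with h0 | hpos
    · have := reductions_pos R
      rw [h0, pow_zero]; omega
    · have hKR : (1 : ℝ) ≤ K := by exact_mod_cast hpos
      obtain ⟨q, hq⟩ : ∃ q : ℝ, q = Real.sqrt ((s : ℝ) / K) := ⟨_, rfl⟩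
      have hq2 : K * q ^ 2 = s := by
        rw [hq, Real.sq_sqrt (by positivity)]; field_simp
      have hq0 : 0 ≤ q := by rw [hq]; exact Real.sqrt_nonneg _
      have hxs : x ≤ s := by
        have h1 : x * (408960 ^ 2 * (w : ℝ) ^ 2 * s) ≤ s * (408960 ^ 2 * (w : ℝ) ^ 2 * s) := by
          rw [← hNx]
          calc ((M : ℝ) + 1) ^ 2 ≤ (w * s) ^ 2 := pow_le_pow_left₀ hM0.le hMsR 2
            _ = 1 * ((w : ℝ) ^ 2 * s * s) := by ring
            _ ≤ 408960 ^ 2 * ((w : ℝ) ^ 2 * s * s) := by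
                apply mul_le_mul_of_nonneg_right (by norm_num) (by positivity)
            _ = _ := by ring
        exact le_of_mul_le_mul_right h1 (by positivity)
      have hq1 : 1 ≤ q := by
        rw [hq, ← Real.sqrt_one]
        apply Real.sqrt_le_sqrt
        rw [le_div_iff₀ (by positivity), one_mul]
        exact hKx.trans hxs
      obtain ⟨T, hTdef⟩ : ∃ T : ℕ, T = ⌈q⌉₊ := ⟨_, rfl⟩
      have hT1 : q ≤ T := by rw [hTdef]; exact Nat.le_ceil q
      have hT2 : (T : ℝ) ≤ 2 * q := by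
        have := Nat.ceil_lt_add_one hq0
        rw [← hTdef] at this
        linarith
      have hT0 : 1 ≤ T := by
        have : (0 : ℝ) < T := by linarith
        exact_mod_cast this
      have hsT : s ≤ K * T ^ 2 := by
        have : (s : ℝ) ≤ K * (T : ℝ) ^ 2 := by
          rw [← hq2]
          exact mul_le_mul_of_nonneg_left (pow_le_pow_left₀ hq0 hT1 2) (by positivity)
        exact_mod_cast this
      have hKqw : 408960 * (K * q * w) ≤ (M : ℝ) + 1 := by
        refine le_of_sq_le_sq ?_ hM0.le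
        rw [hNx]
        calc (408960 * (K * q * w)) ^ 2 = K * (408960 ^ 2 * (w : ℝ) ^ 2 * (K * q ^ 2)) := by ring
          _ = K * (408960 ^ 2 * (w : ℝ) ^ 2 * s) := by rw [hq2]
          _ ≤ _ := mul_le_mul_of_nonneg_right hKx (by positivity)
      have hKT : 204480 * K * T * w ≤ M + 1 := by
        have : (204480 : ℝ) * K * T * w ≤ M + 1 := by
          calc (204480 : ℝ) * K * T * w ≤ 204480 * K * (2 * q) * w := by gcongr
            _ = 408960 * (K * q * w) := by ring
            _ ≤ _ := hKqw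
        exact_mod_cast this
      exact strong_nat hT0 hsT hKT hw R hR
  have hmR : (4 : ℝ) ^ K ≤ 16 * R.reductions := by exact_mod_cast hmain
  have hexp : ((M : ℝ) + 1) ^ 2 / (10 ^ 11 * (w : ℝ) ^ 2 * s) ≤ 2 * (K + 1) := by
    rw [hNx, div_le_iff₀ (by positivity)]
    have h2 : x * (408960 ^ 2 * (w : ℝ) ^ 2 * s) ≤ (2 * x) * (10 ^ 11 * (w : ℝ) ^ 2 * s) := by
      calc x * (408960 ^ 2 * (w : ℝ) ^ 2 * s) = 408960 ^ 2 * (x * ((w : ℝ) ^ 2 * s)) := by ring
        _ ≤ 2 * 10 ^ 11 * (x * ((w : ℝ) ^ 2 * s)) :=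
            mul_le_mul_of_nonneg_right (by norm_num) (by positivity)
        _ = _ := by ring
    refine h2.trans (mul_le_mul_of_nonneg_right ?_ (by positivity))
    linarith
  calc (2 : ℝ) ^ (((M : ℝ) + 1) ^ 2 / (10 ^ 11 * (w : ℝ) ^ 2 * s))
      ≤ (2 : ℝ) ^ ((2 * (K + 1) : ℕ) : ℝ) := by
        refine Real.rpow_le_rpow_of_exponent_le (by norm_num) ?_
        push_cast
        exact hexp
    _ = 4 * 4 ^ K := by
        rw [Real.rpow_natCast, pow_mul, pow_succ]; norm_num; ring
    _ ≤ 4 * (16 * R.reductions) := by gcongr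
    _ = _ := by ring

end H599.QB
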