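import Pool.Agent.H599R2.QB.Lower

/-!
# Quantified parity: the upper bound
-/

namespace H599.QB

open Finset

/-- parity of the bits in `S` -/
def par {n : ℕ} (S : Finset (Fin n)) (y : Fin n → Bool) : Bool :=
  Nat.bodd (S.filter fun i => y i = true).card

theorem par_union {n : ℕ} {S T : Finset (Fin n)} (h : Disjoint S T) (y : Fin n → Bool) :
    par (S ∪ T) y = (par S y ^^ par T y) := by
  unfold par
  rw [Finset.filter_union, Finset.card_union_of_disjoint (Finset.disjoint_filter_filter h),
    Nat.bodd_add]

theorem sg_par {n : ℕ} (S : Finset (Fin n)) (y : Fin n → Bool) : sg (par S y) = chi S y := by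
  induction S using Finset.induction_on with
  | empty => simp [par, chi, sg]
  | insert a S ha ih =>
    have h1 : chi (insert a S) y = sg (y a) * chi S y := by
      unfold chi; rw [Finset.prod_insert ha]
    have h2 : par {a} y = y a := by
      unfold par
      rw [Finset.filter_singleton]
      cases y a <;> simp
    rw [h1, ← ih, Finset.insert_eq, par_union (Finset.disjoint_singleton_left.2 ha), sg_xor, h2]

/-- a function of at most `w` variables has degree at most `w` -/
theorem hasDegree_of_dep {n w : ℕ} {h : (Fin n → Bool) → Bool} (T : Finset (Fin n))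
    (hT : T.card ≤ w) (hh : ∀ x y, (∀ v ∈ T, x v = y v) → h x = h y) : HasDegree w h := by
  refine ⟨∑ U ∈ T.powerset, MvPolynomial.C (if h (fun v => decide (v ∈ U)) then (1 : ℝ) else 0) *
    ∏ i ∈ T, (if i ∈ U then MvPolynomial.X i else 1 - MvPolynomial.X i), ?_, fun x => ?_⟩
  · refine MvPolynomial.totalDegree_finsetSum_le fun U _ => ?_
    refine (MvPolynomial.totalDegree_mul _ _).trans ?_
    rw [MvPolynomial.totalDegree_C, zero_add]
    refine (MvPolynomial.totalDegree_finsetProd _ _).trans ?_
    refine le_trans (Finset.sum_le_card_nsmul _ _ 1 fun i _ => ?_) (by simpa using hT)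
    split_ifs
    · rw [MvPolynomial.totalDegree_X]
    · refine (MvPolynomial.totalDegree_sub _ _).trans ?_
      rw [MvPolynomial.totalDegree_X]
      simp
  · rw [map_sum, Finset.sum_eq_single (T.filter fun v => x v = true)]
    · rw [map_mul, MvPolynomial.eval_C, map_prod]
      have h1 : ∏ i ∈ T, MvPolynomial.eval (fun i => if x i then (1 : ℝ) else 0)
          (if i ∈ T.filter (fun v => x v = true) then MvPolynomial.X i else 1 - MvPolynomial.X i)
          = 1 := by
        refine Finset.prod_eq_one fun i hi => ?_
        cases hx : x i <;> simp [hi, hx]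
      rw [h1, mul_one]
      have h2 : h (fun v => decide (v ∈ T.filter fun v => x v = true)) = h x := by
        refine hh _ _ fun v hv => ?_
        cases hx : x v <;> simp [hv, hx]
      rw [h2]
    · intro U hU hne
      have hsub := Finset.mem_powerset.1 hU
      have : ∃ i ∈ T, decide (i ∈ U) ≠ x i := by
        by_contra hcon
        push Not at hcon
        apply hne
        ext v
        rw [Finset.mem_filter]
        constructor
        · intro hv
          refine ⟨hsub hv, ?_⟩
          rw [← hcon v (hsub hv)]
          simpa using hv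
        · rintro ⟨h1, h2⟩
          have := hcon v h1
          rw [h2] at this
          simpa using this
      obtain ⟨i, hi, hne⟩ := this
      rw [map_mul, map_prod, Finset.prod_eq_zero hi, mul_zero]
      by_cases hiU : i ∈ U
      · have hx : x i = false := by
          cases hx : x i
          · rfl
          · exact absurd (by rw [hx]; simpa using hiU) hne
        rw [if_pos hiU]; simp [hx]
      · have hx : x i = true := by
          cases hx : x i
          · exact absurd (by rw [hx]; simpa using hiU) hne
          · rfl
        rw [if_neg hiU]; simp [hx]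
    · intro h
      exact absurd (Finset.mem_powerset.2 (Finset.filter_subset _ _)) h

theorem formula_par {n w : ℕ} (k : ℕ) (S : Finset (Fin n)) (hS : S.card ≤ w * 2 ^ k) :
    Formula w (4 ^ k) (par S) := by
  induction k generalizing S with
  | zero =>
    refine Formula.leaf _ (hasDegree_of_dep S (by simpa using hS) fun x y hxy => ?_)
    unfold par
    congr 2
    exact Finset.filter_congr fun i hi => by rw [hxy i hi]
  | succ k ih =>
    obtain ⟨T, hT, hTc⟩ := Finset.exists_subset_card_eq
      (s := S) (n := min S.card (w * 2 ^ k)) (min_le_left _ _)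
    have h1 : T.card ≤ w * 2 ^ k := hTc ▸ min_le_right _ _
    have h2 : (S \ T).card ≤ w * 2 ^ k := by
      rw [Finset.card_sdiff_of_subset hT, hTc]
      rw [pow_succ, ← mul_assoc] at hS
      omega
    have h3 : par S = fun y => ((par T y && !par (S \ T) y) || (!par T y && par (S \ T) y)) := by
      funext y
      have h4 : S = T ∪ (S \ T) := (Finset.union_sdiff_of_subset hT).symm
      conv_lhs => rw [h4]
      rw [par_union Finset.disjoint_sdiff]
      cases par T y <;> cases par (S \ T) y <;> rfl
    have h5 : 4 ^ (k + 1) = (4 ^ k + 4 ^ k) + (4 ^ k + 4 ^ k) := by ring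
    rw [h3, h5]
    exact ((ih T h1).and (ih _ h2).neg).or ((ih T h1).neg.and (ih _ h2))

/-- the set of the variables `x_i` -/
def xs (M : ℕ) : Finset (Fin (2 * M + 3)) := Finset.univ.filter fun v => v.1 < M + 1

theorem xs_card (M : ℕ) : (xs M).card = M + 1 := by
  have : xs M = (Finset.univ : Finset (Fin (M + 1))).map
      ⟨fun i => (⟨i.1, by omega⟩ : Fin (2 * M + 3)), fun i j h => by
        have := congrArg Fin.val h; exact Fin.ext this⟩ := by
    ext v
    unfold xs
    simp only [Finset.mem_filter, Finset.mem_univ, true_and, Finset.mem_map,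
      Function.Embedding.coeFn_mk]
    constructor
    · intro h; exact ⟨⟨v.1, h⟩, rfl⟩
    · rintro ⟨i, rfl⟩; exact i.2
  rw [this, Finset.card_map, Finset.card_univ, Fintype.card_fin]

theorem par_xs {M : ℕ} (y : Fin (2 * M + 3) → Bool) : par (xs M) y = pz (ex y) M := by
  apply sg_inj
  rw [sg_par, sg_pz, Finset.prod_range]
  unfold chi
  refine Finset.prod_bij' (fun v hv => (⟨v.1, (Finset.mem_filter.1 hv).2⟩ : Fin (M + 1)))
    (fun i _ => (⟨i.1, by omega⟩ : Fin (2 * M + 3))) ?_ ?_ ?_ ?_ ?_
  · intro v hv; exact Finset.mem_univ _
  · intro i _; exact Finset.mem_filter.2 ⟨Finset.mem_univ _, i.2⟩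
  · intro v hv; rfl
  · intro i _; rfl
  · intro v hv
    unfold ex
    rw [dif_pos v.2]

theorem par_xs_update {M : ℕ} (v : Fin (2 * M + 3)) (hv : uv M ≤ v) (x : Fin (2 * M + 3) → Bool)
    (c : Bool) : par (xs M) (Function.update x v c) = par (xs M) x := by
  unfold par
  congr 2
  refine Finset.filter_congr fun i hi => ?_
  rw [Function.update_of_ne]
  rintro rfl
  have h1 := (Finset.mem_filter.1 hi).2
  have h2 : M + 1 ≤ i.1 := hv
  omega

/-- the refutation with two reductions -/
def shortRef (M : ℕ) : Refutation (qparity M) 4 where
  line := ![fun y => (y (uv M) ^^ par (xs M) y), fun y => par (xs M) y, fun y => !par (xs M) y,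
    fun _ => false]
  just := ![none, some (0, uv M, false), some (0, uv M, true), none]
  infer := by
    intro j hj x hx hl
    fin_cases j
    · change (x (uv M) ^^ par (xs M) x) = true
      have h1 := matrix_ne hx
      rw [← par_xs] at h1
      revert h1
      cases x (uv M) <;> cases par (xs M) x <;> simp
    · exact absurd hj (by simp)
    · exact absurd hj (by simp)
    · have h1 : par (xs M) x = true := hl 1 (by decide)
      have h2 : (!par (xs M) x) = true := hl 2 (by decide)
      rw [h1] at h2
      exact absurd h2 (by simp)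
  red := by
    intro j i u b hj
    fin_cases j
    · exact absurd hj (by simp)
    · obtain ⟨rfl, rfl, rfl⟩ : (0 : Fin 4) = i ∧ uv M = u ∧ false = b := by
        have h1 : some ((0 : Fin 4), uv M, false) = some (i, u, b) := hj
        simpa using h1
      refine ⟨by decide, by simp [qparity], fun v hv x c => ?_, fun x => ?_⟩
      · change (Function.update x v c (uv M) ^^ par (xs M) (Function.update x v c))
          = (x (uv M) ^^ par (xs M) x)
        rw [par_xs_update v hv.le, Function.update_of_ne hv.ne]
      · change par (xs M) x = (Function.update x (uv M) false (uv M) ^^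
          par (xs M) (Function.update x (uv M) false))
        rw [par_xs_update _ le_rfl, Function.update_self, Bool.false_xor]
    · obtain ⟨rfl, rfl, rfl⟩ : (0 : Fin 4) = i ∧ uv M = u ∧ true = b := by
        have h1 : some ((0 : Fin 4), uv M, true) = some (i, u, b) := hj
        simpa using h1
      refine ⟨by decide, by simp [qparity], fun v hv x c => ?_, fun x => ?_⟩
      · change (Function.update x v c (uv M) ^^ par (xs M) (Function.update x v c))
          = (x (uv M) ^^ par (xs M) x)
        rw [par_xs_update v hv.le, Function.update_of_ne hv.ne]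
      · change (!par (xs M) x) = (Function.update x (uv M) true (uv M) ^^
          par (xs M) (Function.update x (uv M) true))
        rw [par_xs_update _ le_rfl, Function.update_self, Bool.true_xor]
    · exact absurd hj (by simp)
  final := ⟨3, fun _ => rfl⟩

theorem upper {M w s : ℕ} (hw : 0 < w) (hs : 4 * ((M + w) / w) ^ 2 ≤ s) :
    ∃ R : Refutation (qparity M) 4, R.ReducesTo w s ∧ R.reductions = 2 := by
  refine ⟨shortRef M, ?_, rfl⟩
  set B := (M + w) / w with hB
  have hB1 : M + 1 ≤ w * B := by
    have h1 := Nat.div_add_mod (M + w) w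
    have h2 := Nat.mod_lt (M + w) hw
    rw [← hB] at h1
    omega
  have hB0 : B ≠ 0 := by rintro h; rw [h] at hB1; omega
  set k := Nat.log 2 B + 1 with hk
  have h3 : B < 2 ^ k := Nat.lt_pow_succ_log_self (by norm_num) B
  have h4 : 2 ^ k ≤ 2 * B := by
    rw [hk, pow_succ, mul_comm]
    exact Nat.mul_le_mul_left 2 (Nat.pow_log_le_self 2 hB0)
  have h5 : 4 ^ k ≤ s := by
    refine le_trans ?_ hs
    calc 4 ^ k = (2 ^ k) ^ 2 := by
          rw [← pow_mul, mul_comm k 2, pow_mul]; norm_num
      _ ≤ (2 * B) ^ 2 := Nat.pow_le_pow_left h4 2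
      _ = 4 * B ^ 2 := by ring
  have h6 : Formula w (4 ^ k) (par (xs M)) := by
    refine formula_par k _ ?_
    rw [xs_card]
    exact hB1.trans (Nat.mul_le_mul_left w h3.le)
  intro j hj
  fin_cases j
  · exact absurd hj (by simp [shortRef])
  · exact ⟨_, h5, h6⟩
  · exact ⟨_, h5, h6.neg⟩
  · exact absurd hj (by simp [shortRef])

end H599.QB
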